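import Pool.Agent.Q176.UV.RealM
import Pool.Agent.Q180.UV.Stm

/-!
# Project UV, job UVR (helper180): real type implies the full symplectic Lie algebra
-/

set_option autoImplicit false

namespace Pool.Agent.Q176.UV

/-- **Job UVR.** -/
theorem real : Pool.Agent.Q180.UV.S_real := fun _ _ hZ hpos P φ m hP hre hφ hD hg hm hcent =>
  real_main hZ hpos P φ m hP hre hφ hD hg hm hcent

end Pool.Agent.Q176.UV
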