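import Mathlib
import Pool.Agent.Y91.JP.Piece

/-!
# Project UV: extension of an operator on a summand to the double commutant
-/

set_option autoImplicit false
set_option linter.unusedSectionVars false

namespace Pool.Agent.Q176.UV

open Module LinearMap Pool.Agent.W548.Odd Pool.Agent.Y91.JP

variable {V : Type*} [AddCommGroup V] [Module ℂ V] [FiniteDimensional ℂ V]

variable {G : Submodule ℂ (End ℂ V)} {st : End ℂ V →ₗ[ℂ] End ℂ V} (h : Setup G st)
  {ω : V →ₗ[ℂ] V →ₗ[ℂ] ℂ} (hω : AltF st ω) {M : Submodule ℂ V} {p : V →ₗ[ℂ] M}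
  (c : Cor G st M p)

include hω in
theorem st_st (a : End ℂ V) : st (st a) = a := by
  refine LinearMap.ext fun w => ?_
  rw [← sub_eq_zero]
  refine hω.nd _ fun v => ?_
  rw [map_sub, ← hω.adj, hω.anti, ← hω.adj, hω.anti, neg_neg, sub_self]

include h in
theorem st_eq_zero {a : End ℂ V} (ha : st a = 0) : a = 0 := by
  have h1 := h.st_rk a
  rw [ha, rk_zero] at h1
  exact rk_eq_zero h1.symm

include c in
/-- The commutant on the summand is the scalars. -/
theorem pr_prim (hM : IrrS G M) {f : End ℂ V} (hf : f ∈ Cmt G) :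
    ∃ a : ℂ, pr M p * f * pr M p = a • pr M p := by
  obtain ⟨a, ha⟩ := scal_irr c hM (rs M p f) (by
    rintro _ ⟨y, hy, rfl⟩
    rw [← rs_mul c.hp (c.comm y hy), hf y hy]
    refine LinearMap.ext fun x => ?_
    have h1 := LinearMap.congr_fun (c.comm y hy) (f x)
    rw [Module.End.mul_apply, Module.End.mul_apply] at h1
    rw [rs_apply, Module.End.mul_apply, Module.End.mul_apply, rs_apply, rs_apply]
    change _ = p (y (pr M p (f x)))
    rw [← h1]
    exact (c.hp _).symm)
  refine ⟨a, ?_⟩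
  rw [← ex_rs c.hp, ha, map_smul]
  rfl

include h c in
/-- Nonzero homomorphisms from the summand have left inverses. -/
theorem left_inv (hM : IrrS G M) {f : End ℂ V} (hf : f ∈ Cmt G) (hfq : f * pr M p = f)
    (hf0 : f ≠ 0) : ∃ k ∈ Cmt G, pr M p * k = k ∧ k * f = pr M p := by
  obtain ⟨π, h1, h2, h3⟩ := h.cr (LinearMap.range f) (range_stable hf)
  have hfp : ∀ v, f (p v) = f v := fun v => LinearMap.congr_fun hfq v
  -- injectivity on the summand
  have hinj : ∀ x : M, f x = 0 → x = 0 := by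
    intro x hx
    rcases hM.min (M ⊓ LinearMap.ker f) (by
      rintro y hy z ⟨hz, hz'⟩
      refine ⟨hM.st y hy z hz, ?_⟩
      change f z = 0 at hz'
      change f (y z) = 0
      have h4 := LinearMap.congr_fun (hf y hy) z
      rw [Module.End.mul_apply, Module.End.mul_apply, hz', map_zero] at h4
      exact h4) inf_le_left with h4 | h4
    · have h5 : (x : V) ∈ M ⊓ LinearMap.ker f := ⟨x.2, hx⟩
      rw [h4, Submodule.mem_bot] at h5
      exact Subtype.ext h5
    · exfalso
      apply hf0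
      refine LinearMap.ext fun v => ?_
      have h5 : (p v : V) ∈ M ⊓ LinearMap.ker f := by
        rw [h4]
        exact (p v).2
      rw [← hfp]
      exact h5.2
  obtain ⟨r, hr⟩ := LinearMap.exists_leftInverse_of_injective (f ∘ₗ M.subtype) (by
    rw [LinearMap.ker_eq_bot']
    intro x hx
    exact hinj x hx)
  have hr' : ∀ x : M, r (f x) = x := fun x => LinearMap.congr_fun hr x
  refine ⟨M.subtype ∘ₗ r ∘ₗ π, ?_, ?_, ?_⟩
  · intro y hy
    refine LinearMap.ext fun v => ?_
    obtain ⟨w, hw⟩ := h2 v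
    have h4 : π (y v) = y (π v) := LinearMap.congr_fun (h1 y hy) v
    have h5 : f (y (p w)) = y (f (p w)) := LinearMap.congr_fun (hf y hy) _
    change (r (π (y v)) : V) = y (r (π v) : V)
    rw [h4, ← hw, ← hfp w, ← h5, hr']
    have h6 := hr' ⟨y (p w), hM.st y hy _ (p w).2⟩
    exact congrArg Subtype.val h6
  · refine LinearMap.ext fun v => ?_
    exact pr_of_mem c.hp (r (π v)).2
  · refine LinearMap.ext fun v => ?_
    change (r (π (f v)) : V) = (p v : V)
    rw [h3 _ ⟨v, rfl⟩, ← hfp, hr']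

/-- Homomorphisms from the summand. -/
def FF (G : Submodule ℂ (End ℂ V)) (M : Submodule ℂ V) (p : V →ₗ[ℂ] M) :
    Submodule ℂ (End ℂ V) where
  carrier := {f | f ∈ Cmt G ∧ f * pr M p = f}
  zero_mem' := ⟨Submodule.zero_mem _, zero_mul _⟩
  add_mem' := fun {a b} ha hb => ⟨Submodule.add_mem _ ha.1 hb.1, by
    rw [add_mul, ha.2, hb.2]⟩
  smul_mem' := fun t a ha => ⟨Submodule.smul_mem _ t ha.1, by
    rw [smul_mul_assoc, ha.2]⟩

/-- Homomorphisms to the summand. -/
def FF' (G : Submodule ℂ (End ℂ V)) (M : Submodule ℂ V) (p : V →ₗ[ℂ] M) :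
    Submodule ℂ (End ℂ V) where
  carrier := {f | f ∈ Cmt G ∧ pr M p * f = f}
  zero_mem' := ⟨Submodule.zero_mem _, mul_zero _⟩
  add_mem' := fun {a b} ha hb => ⟨Submodule.add_mem _ ha.1 hb.1, by
    rw [mul_add, ha.2, hb.2]⟩
  smul_mem' := fun t a ha => ⟨Submodule.smul_mem _ t ha.1, by
    rw [mul_smul_comm, ha.2]⟩

/-- The pairing. -/
noncomputable def pai (G : Submodule ℂ (End ℂ V)) (M : Submodule ℂ V) (p : V →ₗ[ℂ] M) :
    FF' G M p →ₗ[ℂ] FF G M p →ₗ[ℂ] ℂ :=
  LinearMap.mk₂ ℂ (fun k f => trace ℂ V ((k : End ℂ V) * f) / trace ℂ V (pr M p))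
    (fun a b f => by
      change trace ℂ V (((a : End ℂ V) + b) * f) / _ = _
      rw [add_mul, map_add, add_div])
    (fun t a f => by
      change trace ℂ V ((t • (a : End ℂ V)) * f) / _ = _
      rw [smul_mul_assoc, map_smul, smul_eq_mul, smul_eq_mul, mul_div_assoc])
    (fun a f f' => by
      change trace ℂ V ((a : End ℂ V) * ((f : End ℂ V) + f')) / _ = _
      rw [mul_add, map_add, add_div])
    (fun t a f => by
      change trace ℂ V ((a : End ℂ V) * (t • (f : End ℂ V))) / _ = _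
      rw [mul_smul_comm, map_smul, smul_eq_mul, smul_eq_mul, mul_div_assoc])

theorem pai_apply (k : FF' G M p) (f : FF G M p) :
    pai G M p k f = trace ℂ V ((k : End ℂ V) * f) / trace ℂ V (pr M p) := rfl

include c in
theorem trace_pr_ne (hM : IrrS G M) : trace ℂ V (pr M p) ≠ 0 := by
  rw [trace_idem (pr_sq c.hp)]
  have h1 : rk (pr M p) ≠ 0 := by
    intro h0
    have h2 := rk_eq_zero h0
    obtain ⟨x, hx, hx0⟩ := Submodule.exists_mem_ne_zero_of_ne_bot hM.ne
    apply hx0
    rw [← pr_of_mem c.hp hx, h2]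
    rfl
  exact_mod_cast h1

include c in
theorem pai_spec (hM : IrrS G M) (k : FF' G M p) (f : FF G M p) :
    (k : End ℂ V) * f = pai G M p k f • pr M p := by
  have h1 : (k : End ℂ V) * f = pr M p * ((k : End ℂ V) * f) * pr M p := by
    rw [← mul_assoc, k.2.2, mul_assoc, f.2.2]
  obtain ⟨a, ha⟩ := pr_prim c hM (Cmt.mul k.2.1 f.2.1)
  rw [← h1] at ha
  rw [pai_apply, ha, map_smul, smul_eq_mul, mul_div_assoc, div_self (trace_pr_ne c hM), mul_one]

include h hω c in
/-- **Extension of skew operators.** -/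
theorem exists_ext (htr : TrSt st) (hM : IrrS G M) {T : End ℂ M} (hT : st' st M p T = -T) :
    ∃ N : End ℂ V, (∀ f ∈ Cmt G, N * f = f * N) ∧ st N = -N ∧
      (∀ f ∈ Cmt G, trace ℂ V (N * f) = 0) ∧ rs M p N = T := by
  classical
  have hq2 := pr_sq c.hp
  have hqC : pr M p ∈ Cmt G := c.comm
  have hst : ∀ f ∈ FF G M p, st f ∈ FF' G M p := by
    rintro f ⟨h1, h2⟩
    refine ⟨st_cmt h h1, ?_⟩
    conv_rhs => rw [← h2]
    rw [h.st_mul, c.st]
  have hst' : ∀ f ∈ FF' G M p, st f ∈ FF G M p := by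
    rintro f ⟨h1, h2⟩
    refine ⟨st_cmt h h1, ?_⟩
    conv_rhs => rw [← h2]
    rw [h.st_mul, c.st]
  have hprn : pr M p ≠ 0 := by
    intro h0
    have h1 := trace_pr_ne c hM
    rw [h0, map_zero] at h1
    exact h1 rfl
  -- regularity
  have hreg : ∀ f : FF G M p, (∀ k : FF' G M p, (k : End ℂ V) * f = 0) → f = 0 := by
    intro f hf
    by_contra hf0
    have hf0' : (f : End ℂ V) ≠ 0 := fun h0 => hf0 (Subtype.ext h0)
    obtain ⟨k, hk, hk1, hk2⟩ := left_inv h c hM f.2.1 f.2.2 hf0'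
    have h1 := hf ⟨k, hk, hk1⟩
    rw [hk2] at h1
    exact hprn h1
  have hreg' : ∀ k : FF' G M p, (∀ f : FF G M p, (k : End ℂ V) * f = 0) → k = 0 := by
    intro k hk
    have h1 := hreg ⟨st k, hst' k k.2⟩ fun k' => by
      have h2 := hk ⟨st k', hst' k' k'.2⟩
      change (k : End ℂ V) * st k' = 0 at h2
      change (k' : End ℂ V) * st k = 0
      have h3 := congrArg st h2
      rw [h.st_mul, st_st hω, map_zero] at h3
      exact h3
    have h2 : st (k : End ℂ V) = 0 := congrArg Subtype.val h1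
    exact Subtype.ext (st_eq_zero h h2)
  -- surjectivity of the pairing
  have hinj : Function.Injective (pai G M p) := by
    rw [injective_iff_map_eq_zero]
    intro k hk
    refine hreg' k fun f => ?_
    rw [pai_spec c hM, hk, LinearMap.zero_apply, zero_smul]
  have hinj' : Function.Injective (pai G M p).flip := by
    rw [injective_iff_map_eq_zero]
    intro f hf
    refine hreg f fun k => ?_
    have h1 : pai G M p k f = (pai G M p).flip f k := rfl
    rw [pai_spec c hM, h1, hf, LinearMap.zero_apply, zero_smul]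
  have hd1 : finrank ℂ (FF' G M p) ≤ finrank ℂ (Dual ℂ (FF G M p)) :=
    LinearMap.finrank_le_finrank_of_injective hinj
  have hd2 : finrank ℂ (FF G M p) ≤ finrank ℂ (Dual ℂ (FF' G M p)) :=
    LinearMap.finrank_le_finrank_of_injective hinj'
  rw [Subspace.dual_finrank_eq] at hd1 hd2
  have hfin : finrank ℂ (FF' G M p) = finrank ℂ (Dual ℂ (FF G M p)) := by
    rw [Subspace.dual_finrank_eq]
    exact le_antisymm hd1 hd2
  have hsurj : Function.Surjective (pai G M p) :=
    (LinearMap.injective_iff_surjective_of_finrank_eq_finrank hfin).1 hinj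
  -- dual bases
  let A := Module.finBasis ℂ (FF G M p)
  choose B hB using fun i => hsurj (A.coord i)
  have hBf : ∀ i (f : FF G M p), (B i : End ℂ V) * f = A.repr f i • pr M p := by
    intro i f
    rw [pai_spec c hM, hB]
    rfl
  have hsumA : ∀ f : FF G M p, ∑ i, (A i : End ℂ V) * (B i : End ℂ V) * f = f := by
    intro f
    have h1 : ∀ i, (A i : End ℂ V) * (B i : End ℂ V) * f = A.repr f i • (A i : End ℂ V) := by
      intro i
      rw [mul_assoc, hBf, mul_smul_comm, (A i).2.2]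
    rw [Finset.sum_congr rfl fun i _ => h1 i]
    have h2 := congrArg Subtype.val (A.sum_repr f)
    rw [← h2]
    simp only [Submodule.coe_sum, Submodule.coe_smul]
  obtain ⟨ec, hec⟩ : ∃ ec, ec = ∑ i, (A i : End ℂ V) * (B i : End ℂ V) := ⟨_, rfl⟩
  have hecf : ∀ f ∈ FF G M p, ec * f = f := by
    intro f hf
    rw [hec, Finset.sum_mul]
    exact hsumA ⟨f, hf⟩
  have hecC : ec ∈ Cmt G := by
    rw [hec]
    exact Submodule.sum_mem _ fun i _ => Cmt.mul (A i).2.1 (B i).2.1
  have hkec : ∀ k ∈ FF' G M p, k * ec = k := by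
    intro k hk
    have h1 : k * ec - k ∈ FF' G M p := by
      refine Submodule.sub_mem _ ⟨Cmt.mul hk.1 hecC, ?_⟩ hk
      rw [← mul_assoc, hk.2]
    have h2 := hreg' ⟨_, h1⟩ fun f => by
      change (k * ec - k) * (f : End ℂ V) = 0
      rw [sub_mul, mul_assoc, hecf f f.2, sub_self]
    exact sub_eq_zero.1 (congrArg Subtype.val h2)
  -- the extension
  obtain ⟨T', hT'⟩ : ∃ T', T' = ex M p T := ⟨_, rfl⟩
  have hqT : pr M p * T' = T' := by rw [hT', pr_ex c.hp]
  have hTq : T' * pr M p = T' := by rw [hT', ex_pr c.hp]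
  have hsT : st T' = -T' := by
    rw [hT', ← c.ex_st' h, hT, map_neg]
  have hTG : trace ℂ V T' = 0 := by
    have h1 := htr T'
    rw [hsT, map_neg] at h1
    have h2 : (2 : ℂ) * trace ℂ V T' = 0 := by linear_combination -h1
    exact (mul_eq_zero.1 h2).resolve_left two_ne_zero
  obtain ⟨N, hN⟩ : ∃ N, N = ∑ i, (A i : End ℂ V) * T' * (B i : End ℂ V) := ⟨_, rfl⟩
  have hlam : ∀ f ∈ Cmt G, ∃ lam : Fin (finrank ℂ (FF G M p)) → Fin (finrank ℂ (FF G M p)) → ℂ,
      ∀ j i, (B j : End ℂ V) * f * (A i : End ℂ V) = lam j i • pr M p := by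
    intro f hf
    refine ⟨fun j i => pai G M p ⟨(B j : End ℂ V) * f, Cmt.mul (B j).2.1 hf, by
      rw [← mul_assoc, (B j).2.2]⟩ (A i), fun j i => ?_⟩
    exact pai_spec c hM ⟨(B j : End ℂ V) * f, Cmt.mul (B j).2.1 hf, by
      rw [← mul_assoc, (B j).2.2]⟩ (A i)
  have key1 : ∀ f ∈ Cmt G, ∀ i, f * (A i : End ℂ V) =
      ∑ j, (A j : End ℂ V) * ((B j : End ℂ V) * f * (A i : End ℂ V)) := by
    intro f hf i
    have h1 := hecf (f * A i) ⟨Cmt.mul hf (A i).2.1, by rw [mul_assoc, (A i).2.2]⟩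
    rw [hec, Finset.sum_mul] at h1
    refine h1.symm.trans ?_
    exact Finset.sum_congr rfl fun j _ => by simp only [mul_assoc]
  have key2 : ∀ f ∈ Cmt G, ∀ j, (B j : End ℂ V) * f =
      ∑ i, ((B j : End ℂ V) * f * (A i : End ℂ V)) * (B i : End ℂ V) := by
    intro f hf j
    have h1 := hkec ((B j : End ℂ V) * f) ⟨Cmt.mul (B j).2.1 hf, by rw [← mul_assoc, (B j).2.2]⟩
    rw [hec, Finset.mul_sum] at h1
    refine h1.symm.trans ?_
    exact Finset.sum_congr rfl fun i _ => by simp only [mul_assoc]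
  have hNf : ∀ f ∈ Cmt G, ∀ lam : Fin (finrank ℂ (FF G M p)) → Fin (finrank ℂ (FF G M p)) → ℂ,
      (∀ j i, (B j : End ℂ V) * f * (A i : End ℂ V) = lam j i • pr M p) →
      N * f = ∑ j, ∑ i, lam j i • ((A j : End ℂ V) * T' * (B i : End ℂ V)) := by
    intro f hf lam hl
    rw [hN, Finset.sum_mul]
    refine Finset.sum_congr rfl fun j _ => ?_
    rw [mul_assoc, key2 f hf j, Finset.mul_sum]
    refine Finset.sum_congr rfl fun i _ => ?_
    rw [hl, smul_mul_assoc, (B i).2.2, mul_smul_comm]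
  have hfN : ∀ f ∈ Cmt G, ∀ lam : Fin (finrank ℂ (FF G M p)) → Fin (finrank ℂ (FF G M p)) → ℂ,
      (∀ j i, (B j : End ℂ V) * f * (A i : End ℂ V) = lam j i • pr M p) →
      f * N = ∑ j, ∑ i, lam j i • ((A j : End ℂ V) * T' * (B i : End ℂ V)) := by
    intro f hf lam hl
    rw [hN, Finset.mul_sum, Finset.sum_comm]
    refine Finset.sum_congr rfl fun i _ => ?_
    rw [mul_assoc, ← mul_assoc, key1 f hf i, Finset.sum_mul]
    refine Finset.sum_congr rfl fun j _ => ?_
    rw [hl, mul_smul_comm, (A j).2.2, smul_mul_assoc, mul_assoc]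
  have hNC : ∀ f ∈ Cmt G, N * f = f * N := by
    intro f hf
    obtain ⟨lam, hl⟩ := hlam f hf
    rw [hNf f hf lam hl, hfN f hf lam hl]
  have hNt : ∀ f ∈ Cmt G, trace ℂ V (N * f) = 0 := by
    intro f hf
    obtain ⟨lam, hl⟩ := hlam f hf
    rw [hN, Finset.sum_mul, map_sum]
    refine Finset.sum_eq_zero fun i _ => ?_
    have e1 : (A i : End ℂ V) * T' * (B i : End ℂ V) * f =
        (A i : End ℂ V) * (T' * ((B i : End ℂ V) * f)) := by simp only [mul_assoc]
    rw [e1, LinearMap.trace_mul_comm, mul_assoc, hl, mul_smul_comm, hTq, map_smul, hTG, smul_zero]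
  have hqNq : pr M p * N * pr M p = T' := by
    rw [hN, Finset.mul_sum, Finset.sum_mul]
    have h1 : ∀ i, ∃ s : ℂ, pr M p * (A i : End ℂ V) = s • pr M p := by
      intro i
      obtain ⟨s, hs⟩ := pr_prim c hM (A i).2.1
      refine ⟨s, ?_⟩
      rw [← hs, mul_assoc, (A i).2.2]
    have h2 : ∀ i, ∃ s : ℂ, (B i : End ℂ V) * pr M p = s • pr M p := by
      intro i
      obtain ⟨s, hs⟩ := pr_prim c hM (B i).2.1
      refine ⟨s, ?_⟩
      rw [← hs, (B i).2.2]
    choose s hs using h1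
    choose t ht using h2
    have h3 : (∑ i, s i * t i) • pr M p = pr M p := by
      have h4 := hkec (pr M p) ⟨hqC, hq2⟩
      have h5 : pr M p * ec * pr M p = pr M p := by rw [h4, hq2]
      conv_rhs => rw [← h5, hec]
      rw [Finset.mul_sum, Finset.sum_mul, Finset.sum_smul]
      refine Finset.sum_congr rfl fun i _ => ?_
      rw [← mul_assoc, hs, mul_assoc, ht, smul_mul_assoc, mul_smul_comm, hq2, smul_smul]
    have h4 : ∀ i, pr M p * ((A i : End ℂ V) * T' * (B i : End ℂ V)) * pr M p =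
        (s i * t i) • T' := by
      intro i
      have e1 : pr M p * ((A i : End ℂ V) * T' * (B i : End ℂ V)) * pr M p =
          (pr M p * (A i : End ℂ V)) * T' * ((B i : End ℂ V) * pr M p) := by
        simp only [mul_assoc]
      rw [e1, hs, ht, smul_mul_assoc, smul_mul_assoc, hqT, mul_smul_comm, hTq, smul_smul]
    rw [Finset.sum_congr rfl fun i _ => h4 i, ← Finset.sum_smul]
    conv_lhs => rw [← hqT]
    rw [← smul_mul_assoc, h3, hqT]
  -- the extension is determined
  have huniq : ∀ N' : End ℂ V, (∀ f ∈ Cmt G, N' * f = f * N') → pr M p * N' * pr M p = T' →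
      N' * ec = N' → N' = N := by
    intro N' h1 h2 h3
    rw [← h3, hec, Finset.mul_sum, hN]
    refine Finset.sum_congr rfl fun i _ => ?_
    have e0 : T' = pr M p * N' := by
      rw [← h2, mul_assoc, h1 _ hqC, ← mul_assoc, hq2]
    have e1 : N' * (A i : End ℂ V) = (A i : End ℂ V) * T' := by
      rw [e0, ← mul_assoc, (A i).2.2, h1 _ (A i).2.1]
    rw [← mul_assoc, e1]
  have hsN : -st N = N := by
    refine huniq _ ?_ ?_ ?_
    · intro f hf
      have h1 := hNC _ (st_cmt h hf)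
      have h2 := congrArg st h1
      rw [h.st_mul, h.st_mul, st_st hω] at h2
      rw [neg_mul, mul_neg, h2]
    · have h1 := congrArg st hqNq
      rw [h.st_mul, h.st_mul, c.st, hsT, ← mul_assoc] at h1
      rw [mul_neg, neg_mul, h1, neg_neg]
    · rw [neg_mul]
      congr 1
      rw [hN, map_sum, Finset.sum_mul]
      refine Finset.sum_congr rfl fun i _ => ?_
      rw [h.st_mul, h.st_mul]
      have h1 := hkec _ (hst _ (A i).2)
      simp only [mul_assoc]
      rw [h1]
  refine ⟨N, hNC, ?_, hNt, ?_⟩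
  · exact neg_eq_iff_eq_neg.1 hsN
  · have h1 := congrArg (rs M p) hqNq
    rw [hT', rs_ex c.hp] at h1
    rw [← h1]
    refine LinearMap.ext fun x => ?_
    rw [rs_apply, rs_apply, Module.End.mul_apply, Module.End.mul_apply, pr_of_mem c.hp x.2]
    exact (c.hp _).symm

end Pool.Agent.Q176.UV
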