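import Mathlib
import Pool.Agent.Y91.JP.Piece3
import Pool.Agent.Q182.UW.OddA

/-!
# Project UV, job UVR: an irreducible summand whose dimension is not divisible by four

The Lie algebra acts on it as the full symplectic Lie algebra.
-/

set_option autoImplicit false
set_option linter.unusedSectionVars false

namespace Pool.Agent.Q176.UV

open Module LinearMap Pool.Agent.W548.Odd Pool.Agent.Y91.JP Q182.UW

/-- The central binomial coefficients of odd numbers greater than one are divisible by four. -/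
theorem four_dvd_centralBinom' {j : ℕ} (hj : 1 ≤ j) : 4 ∣ (2 * j + 1).centralBinom := by
  have h1 := Nat.succ_mul_centralBinom_succ (2 * j)
  have h2 : 2 ∣ (2 * j).centralBinom := Nat.two_dvd_centralBinom_of_one_le (by omega)
  obtain ⟨m, hm⟩ := h2
  have h3 : (2 * j + 1) * (2 * j + 1).centralBinom = 4 * ((2 * (2 * j) + 1) * m) := by
    rw [h1, hm]
    ring
  have h4 : Nat.Coprime 4 (2 * j + 1) := by
    have h5 : Nat.Coprime 2 (2 * j + 1) := by
      rw [Nat.coprime_two_left]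
      exact ⟨j, rfl⟩
    exact Nat.Coprime.pow_left 2 h5
  exact h4.dvd_of_dvd_mul_left ⟨_, h3⟩

section gen

variable {K : Type*} [Field K] [CharZero K] {V : Type*} [AddCommGroup V] [Module K V]
  [FiniteDimensional K V]

variable {G : Submodule K (End K V)} {st : End K V →ₗ[K] End K V} (h : Setup G st)
  (hs : Scal G)

include h in
/-- The elements of the Lie algebra have trace zero. -/
theorem tr_zero' (htr : TrSt st) {y : End K V} (hy : y ∈ G) : trace K V y = 0 := by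
  have h1 := htr y
  rw [h.skew y hy, map_neg] at h1
  have h2 : (2 : K) * trace K V y = 0 := by
    rw [two_mul]
    nth_rewrite 1 [← h1]
    exact neg_add_cancel _
  exact (mul_eq_zero.1 h2).resolve_left two_ne_zero

include h hs in
/-- One of the generating involutions generates the Lie algebra as an ideal. -/
theorem gn_top' (htr : TrSt st) {DD : Set (End K V)} (hDG : ∀ d ∈ DD, d ∈ G ∧ d * d = 1)
    (hgen : ∀ L : Submodule K (End K V), (∀ d ∈ DD, d ∈ L) →
      (∀ y ∈ L, ∀ z ∈ L, y * z - z * y ∈ L) → G ≤ L)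
    {d0 : End K V} (hd0 : d0 ∈ DD) (hne : d0 ≠ 0) (h4 : ¬ 4 ∣ finrank K V) : G ≤ gn G d0 := by
  obtain ⟨hdG, hd2⟩ := hDG d0 hd0
  obtain ⟨I, hI'⟩ : ∃ I, I = gn G d0 := ⟨_, rfl⟩
  have hI : IsIdl G I := by rw [hI']; exact gn_idl h hdG
  by_contra hgn
  rw [← hI'] at hgn
  obtain ⟨d, hd, hdI⟩ : ∃ d ∈ DD, d ∉ I := by
    by_contra hcon
    push Not at hcon
    exact hgn (hgen I hcon fun y hy z hz => hI.br y (hI.le hy) z hz)
  obtain ⟨hd1, hd12⟩ := hDG d hd
  have hc := (invol_dich h hs hI hd1 hd12).resolve_left hdI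
  have hcz : ∀ z ∈ gn G d0, d * z = z * d := by
    rw [← hI']
    exact hc.2
  exact h4 (four_dvd hd2 hd12 (hcz _ mem_gn).symm (tr_zero' h htr hdG) (tr_zero' h htr hc.1)
    (trace_zero h hs hdG hd2 hne hcz))

include h hs in
/-- Elements of rank one. -/
theorem rank_one_pair [IsAlgClosed K] (htr : TrSt st) {ω : V →ₗ[K] V →ₗ[K] K} (hω : AltF st ω)
    {D : End K V} (hD : D ∈ G) (hD2 : D * D = 1) (hD0 : D ≠ 0) (hgn : G ≤ gn G D)
    (h4 : ¬ 4 ∣ finrank K V) : ∃ e ∈ G, ∃ f ∈ G, rk e = 1 ∧ rk f = 1 ∧ e * f * e = e := by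
  have t1 := tr_zero' h htr hD
  by_cases hfr : finrank K V ≤ 2
  · obtain ⟨x, hx, hx0⟩ := exists_kp h hs hD hD2 hD0
    obtain ⟨f, hf, h1, h2⟩ := kp_partner h hD hD2 hx
    have h3 := rk_le hD2 t1 hx.2.1
    have h5 : rk x ≠ 0 := fun h0 => hx0 (rk_eq_zero h0)
    have hx1 : rk x = 1 := by omega
    have h6 : rk f ≤ rk x := by
      conv_lhs => rw [← h2]
      exact (rk_mul_le_left _ _).trans (rk_mul_le_right _ _)
    have h7 : rk x ≤ rk f := by
      conv_lhs => rw [← h1]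
      exact (rk_mul_le_left _ _).trans (rk_mul_le_right _ _)
    exact ⟨x, hx.1, f, (mem_Kn.1 hf).1, hx1, by omega, h1⟩
  · obtain ⟨x, hx, hx2, hx0, hr⟩ := exists_small h hs hD hD2 hD0 t1 hgn
    have hr' : 2 * rk x < finrank K V := by
      rcases hr with hr | hr
      · exact hr
      · exact absurd hr.1 hfr
    refine rank_one_sharp h hs hω htr hD hD2 hgn hx hx2 hx0 (fun h0 => h4 ⟨rk x, h0.symm⟩)
      hr'.ne (Or.inl fun j hj hc => ?_)
    exact absurd (hc ▸ four_dvd_centralBinom' hj) h4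

end gen

open Pool.Agent.W437.HP in
/-- **The action on a summand is the symplectic Lie algebra.** -/
theorem piece_odd {V : Type*} [AddCommGroup V] [Module ℂ V] [FiniteDimensional ℂ V]
    {G : Submodule ℂ (End ℂ V)} {st : End ℂ V →ₗ[ℂ] End ℂ V} (h : Setup G st)
    {ω : V →ₗ[ℂ] V →ₗ[ℂ] ℂ} (hω : AltF st ω) (htr : TrSt st) {M : Submodule ℂ V}
    {p : V →ₗ[ℂ] M} (c : Cor G st M p) (hM : IrrS G M) {DD : Set (End ℂ V)}
    (hDG : ∀ d ∈ DD, d ∈ G ∧ d * d = 1)
    (hgen : ∀ L : Submodule ℂ (End ℂ V), (∀ d ∈ DD, d ∈ L) →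
      (∀ y ∈ L, ∀ z ∈ L, y * z - z * y ∈ L) → G ≤ L)
    {d0 : End ℂ V} (hd0 : d0 ∈ DD) (h4 : ¬ 4 ∣ finrank ℂ M)
    (x y : M) : EE (ω.domRestrict₁₂ M M) x y ∈ G.map (rs M p) := by
  have hs := scal_irr c hM
  have h' := c.setup h hs
  have hω' := c.altF h hω
  have htr' := c.trSt h htr
  have hDG' : ∀ d ∈ (rs M p) '' DD, d ∈ G.map (rs M p) ∧ d * d = 1 := by
    rintro _ ⟨d, hd, rfl⟩
    refine ⟨⟨d, (hDG d hd).1, rfl⟩, ?_⟩
    rw [← c.rs_mem_mul h (hDG d hd).1, (hDG d hd).2, rs_one c.hp]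
  have hgen' : ∀ L : Submodule ℂ (End ℂ M), (∀ d ∈ (rs M p) '' DD, d ∈ L) →
      (∀ y ∈ L, ∀ z ∈ L, y * z - z * y ∈ L) → G.map (rs M p) ≤ L := by
    intro L h1 h2
    have h3 : G ≤ G ⊓ L.comap (rs M p) := by
      refine hgen _ ?_ ?_
      · intro d hd
        exact ⟨(hDG d hd).1, h1 _ ⟨d, hd, rfl⟩⟩
      · rintro y ⟨hy, hy'⟩ z ⟨hz, hz'⟩
        refine ⟨h.br y hy z hz, ?_⟩
        change rs M p (y * z - z * y) ∈ L
        rw [c.rs_br h hy hz]
        exact h2 _ hy' _ hz'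
    rintro _ ⟨y, hy, rfl⟩
    exact (h3 hy).2
  have hnt : Nontrivial M := Submodule.nontrivial_iff_ne_bot.2 hM.ne
  have hm0 := hDG' _ ⟨d0, hd0, rfl⟩
  have hne : rs M p d0 ≠ 0 := by
    intro h0
    have h1 := hm0.2
    rw [h0, mul_zero] at h1
    exact zero_ne_one h1
  have hgn := gn_top' h' hs htr' hDG' hgen' ⟨d0, hd0, rfl⟩ hne h4
  obtain ⟨e, he, f, hf, he1, hf1, hefe⟩ := rank_one_pair h' hs htr' hω' hm0.1 hm0.2 hne hgn h4
  refine full_of_pair ?_ ?_ h'.br ?_ (fun W hW h0 => irr_res c hM hW h0) he hf he1 hf1 hefe x y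
  · intro z
    have h1 := hω'.anti z z
    have h2 : (2 : ℂ) * (ω.domRestrict₁₂ M M) z z = 0 := by linear_combination h1
    exact (mul_eq_zero.1 h2).resolve_left two_ne_zero
  · intro z hz
    refine hω'.nd z fun v => ?_
    rw [hω'.anti, hz, neg_zero]
  · intro X hX v w
    rw [hω'.adj, h'.skew X hX]
    exact map_neg _ _

end Pool.Agent.Q176.UV
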