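import Mathlib
import Pool.Agent.Q180.UV.Stm2
import Pool.Agent.Q176.UV.RealG
import Pool.Agent.Q176.UV.Dbl

/-!
# Project UV, job MEMR: the Lie algebra is the symplectic Lie algebra on the eigenspaces
-/

set_option autoImplicit false
set_option linter.unusedSectionVars false

namespace Pool.Agent.Q176.UV

open Matrix Module LinearMap Polynomial Pool.Agent.W548.Odd Pool.Agent.W437.HC Pool.Agent.W437.HD
  Pool.Agent.W437.HP Pool.Agent.H204R3.CM Pool.Agent.H194R3.CM Pool.Agent.W437.HQ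
  Pool.Agent.W437.HR Pool.Agent.Y91.JP

/-- The degree of the field divides the dimension. -/
theorem dvd_card (B : Type) [Fintype B] [DecidableEq B] (P : ℚ[X]) (φ : Matrix B B ℚ)
    (hP : Irreducible P) (h0 : aeval φ P = 0) :
    ∃ n, Fintype.card B = P.natDegree * n := by
  classical
  have hP0 : P ≠ 0 := hP.ne_zero
  let f0 : ℚ[X] →ₐ[ℚ] Module.End ℚ (B → ℚ) := aeval (Matrix.toLinAlgEquiv' φ)
  have hf0 : ∀ p : ℚ[X], f0 p = Matrix.toLinAlgEquiv' (aeval φ p) := fun p =>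
    aeval_algHom_apply (Matrix.toLinAlgEquiv' : Matrix B B ℚ ≃ₐ[ℚ] _) φ p
  have hker : ∀ p ∈ Ideal.span {P}, f0 p = 0 := by
    intro p hp
    obtain ⟨q, rfl⟩ := Ideal.mem_span_singleton'.mp hp
    rw [hf0, map_mul, h0, mul_zero, map_zero]
  let f : AdjoinRoot P →ₐ[ℚ] Module.End ℚ (B → ℚ) := Ideal.Quotient.liftₐ (Ideal.span {P}) f0 hker
  have _ : Fact (Irreducible P) := ⟨hP⟩
  let : Module (AdjoinRoot P) (B → ℚ) := Module.compHom (B → ℚ) (f : AdjoinRoot P →+* Module.End ℚ (B → ℚ))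
  have hsm : ∀ (z : AdjoinRoot P) (w : B → ℚ), z • w = f z w := fun z w => rfl
  have : IsScalarTower ℚ (AdjoinRoot P) (B → ℚ) := ⟨by
    intro q z w
    rw [hsm, hsm, map_smul, LinearMap.smul_apply]⟩
  have : Module.Finite (AdjoinRoot P) (B → ℚ) := Module.Finite.of_restrictScalars_finite ℚ _ _
  have hfr : finrank ℚ (AdjoinRoot P) = P.natDegree := by
    rw [(AdjoinRoot.powerBasis hP0).finrank]
    rfl
  refine ⟨finrank (AdjoinRoot P) (B → ℚ), ?_⟩
  have h1 := finrank_mul_finrank ℚ (AdjoinRoot P) (B → ℚ)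
  rw [hfr, Module.finrank_fintype_fun_eq_card] at h1
  exact h1.symm

/-- JOB UV8. -/
theorem memr : Pool.Agent.Q180.UV.S_memr := by
  classical
  intro g Z hZ hpos P φ hP hre hφ hD hcent hmem
  obtain ⟨n, hn⟩ := dvd_card (Fin g ⊕ Fin g) P φ hP hφ
  have hcard : Fintype.card (Fin g ⊕ Fin g) = 2 * g := by
    rw [Fintype.card_sum, Fintype.card_fin]
    omega
  rw [hcard] at hn
  rcases Nat.eq_zero_or_pos n with h0 | hn1
  · -- the zero space
    have hg : g = 0 := by
      rw [h0, mul_zero] at hn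
      omega
    subst hg
    have : Subsingleton (Fin 0 ⊕ Fin 0 → ℂ) := ⟨fun a b => funext fun i => by
      rcases i with i | i <;> exact i.elim0⟩
    exact ⟨Empty, inferInstance, inferInstance, fun a => a.elim, fun a => a.elim, fun a => a.elim,
      fun a => a.elim, fun y => Subsingleton.elim _ _, fun a => a.elim, fun a => a.elim,
      fun a => a.elim, fun a => a.elim, fun a => a.elim, fun a => a.elim⟩
  have hW : IsPer ({Z} : Set (Matrix (Fin g) (Fin g) ℂ)) := by
    rintro Z' hZ'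
    rw [Set.mem_singleton_iff.1 hZ']
    exact ⟨hZ, hpos⟩
  obtain ⟨S, Si, H, -⟩ := Pool.Agent.Y4.G.hermZ' hW (Set.mem_singleton Z)
  have h := H.setup
  have hω := altF H.OmT H.Om2
  have htr := trSt H.Om2
  refine real_gen hZ hpos P φ n hP hre hφ hD hn hn1 hcent fun M p c hM hfr x y => ?_
  change Cor (GG (LA (DZ '' {Z}))) (stE (Om g ℂ)) M p at c
  change IrrS (GG (LA (DZ '' {Z}))) M at hM
  have hω' := c.altF h hω
  have hT : st' (stE (Om g ℂ)) M p (EE ((om (Om g ℂ)).domRestrict₁₂ M M) x y) =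
      -EE ((om (Om g ℂ)).domRestrict₁₂ M M) x y := by
    refine LinearMap.ext fun u => ?_
    rw [← sub_eq_zero]
    refine hω'.nd _ fun v => ?_
    rw [map_sub, ← hω'.adj, LinearMap.neg_apply, map_neg, EE_apply, EE_apply]
    simp only [map_add, map_smul, LinearMap.add_apply, LinearMap.smul_apply, smul_eq_mul]
    rw [hω'.anti v y, hω'.anti v x]
    ring
  obtain ⟨N, h1, h2, h3, h4⟩ := exists_ext h hω c htr hM hT
  obtain ⟨A, rfl⟩ := (ph _).surjective N
  refine ⟨ph _ A, ?_, h4⟩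
  refine mem_GG.2 (hmem A ⟨?_, ?_, ?_⟩)
  · intro f hf
    have h5 := h1 _ (cmt_iff.2 hf)
    rw [← map_mul, ← map_mul] at h5
    exact (ph _).injective h5
  · rw [stE_ph, ← map_neg] at h2
    have h5 := (ph _).injective h2
    rw [neg_inj] at h5
    have h6 : Aᵀ * Om g ℂ = -(Om g ℂ * A) := by
      have h7 : Om g ℂ * (Om g ℂ * Aᵀ * Om g ℂ) = Om g ℂ * A := by rw [h5]
      rw [← mul_assoc, ← mul_assoc, Om_sq, neg_one_mul, neg_mul] at h7
      rw [← h7, neg_neg]
    rw [h6, neg_add_cancel]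
  · intro f hf
    have h5 := h3 _ (cmt_iff.2 hf)
    rw [← map_mul] at h5
    rw [← h5]
    exact (Pool.Agent.Y91.JP.trace_ph (A * f)).symm

end Pool.Agent.Q176.UV
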