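import Mathlib

/-!
# Project UV, job TWO: Lie algebras of matrices of size four

An irreducible Lie algebra of matrices of size four with trace zero, which is stable under the
conjugate transpose and contains the diagonal matrix with entries `1, 1, -1, -1`, contains the upper
right corner or preserves a bilinear form.
-/

set_option autoImplicit false
set_option linter.unusedSectionVars false

namespace Pool.Agent.Q176.UV

open Matrix

/-- The hypotheses. -/
structure C4 (G : Submodule ℂ (Matrix (Fin 2 ⊕ Fin 2) (Fin 2 ⊕ Fin 2) ℂ)) : Prop where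
  br : ∀ X ∈ G, ∀ Y ∈ G, X * Y - Y * X ∈ G
  ad : ∀ X ∈ G, Xᴴ ∈ G
  D : fromBlocks 1 0 0 (-1) ∈ G
  tr : ∀ X ∈ G, trace X = 0
  irr : ∀ U : Submodule ℂ (Fin 2 ⊕ Fin 2 → ℂ), (∀ X ∈ G, ∀ u ∈ U, X *ᵥ u ∈ U) → U = ⊥ ∨ U = ⊤

/-- The symplectic matrix of size two. -/
def ep : Matrix (Fin 2) (Fin 2) ℂ := !![0, 1; -1, 0]

theorem ep_T : epᵀ = -ep := by
  ext i j
  fin_cases i <;> fin_cases j <;> simp [ep]

theorem ep_sq : ep * ep = -1 := by
  ext i j
  fin_cases i <;> fin_cases j <;> simp [ep, Matrix.mul_apply, Fin.sum_univ_two]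

theorem ep_tr (b : Matrix (Fin 2) (Fin 2) ℂ) : bᵀ * ep + ep * b = trace b • ep := by
  obtain ⟨p, q, r, s, rfl⟩ : ∃ p q r s, b = !![p, q; r, s] := ⟨_, _, _, _, Matrix.eta_fin_two b⟩
  ext i j
  fin_cases i <;> fin_cases j <;>
    simp [ep, Matrix.mul_apply, Fin.sum_univ_two, Matrix.trace_fin_two]

theorem ep_det (x : Matrix (Fin 2) (Fin 2) ℂ) : xᵀ * ep * x = det x • ep := by
  ext i j
  fin_cases i <;> fin_cases j <;>
    simp [ep, Matrix.mul_apply, Fin.sum_univ_two, Matrix.det_fin_two] <;> ring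

namespace C4

variable {G : Submodule ℂ (Matrix (Fin 2 ⊕ Fin 2) (Fin 2 ⊕ Fin 2) ℂ)} (H : C4 G)
include H

theorem no_zero (S : Finset (Fin 2 ⊕ Fin 2)) {i0 j0 : Fin 2 ⊕ Fin 2} (hi : i0 ∈ S) (hj : j0 ∉ S)
    (h : ∀ X ∈ G, ∀ i ∈ S, ∀ j ∉ S, X i j = 0) : False := by
  let U : Submodule ℂ (Fin 2 ⊕ Fin 2 → ℂ) :=
    { carrier := {u | ∀ i ∈ S, u i = 0}
      zero_mem' := fun i _ => rfl
      add_mem' := fun {x y} hx hy i hi => by
        rw [Pi.add_apply, hx i hi, hy i hi, add_zero]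
      smul_mem' := fun r x hx i hi => by
        rw [Pi.smul_apply, hx i hi, smul_zero] }
  rcases H.irr U (by
    intro X hX u hu i hi
    change ∑ j, X i j * u j = 0
    refine Finset.sum_eq_zero fun j _ => ?_
    by_cases hj : j ∈ S
    · rw [hu j hj, mul_zero]
    · rw [h X hX i hi j hj, zero_mul]) with h1 | h1
  · have h2 : (Pi.single j0 1 : Fin 2 ⊕ Fin 2 → ℂ) ∈ U := by
      intro i hi
      rw [Pi.single_eq_of_ne]
      rintro rfl
      exact hj hi
    rw [h1, Submodule.mem_bot] at h2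
    have h3 := congrFun h2 j0
    rw [Pi.single_eq_same, Pi.zero_apply] at h3
    exact one_ne_zero h3
  · have h2 : (Pi.single i0 1 : Fin 2 ⊕ Fin 2 → ℂ) ∈ U := by
      rw [h1]
      trivial
    have h3 := h2 i0 hi
    rw [Pi.single_eq_same] at h3
    exact one_ne_zero h3

theorem split {a x y b : Matrix (Fin 2) (Fin 2) ℂ} (h : fromBlocks a x y b ∈ G) :
    fromBlocks 0 x 0 0 ∈ G ∧ fromBlocks 0 0 y 0 ∈ G ∧ fromBlocks a 0 0 b ∈ G := by
  have h1 := H.br _ H.D _ h
  have e1 : (fromBlocks 1 0 0 (-1) * fromBlocks a x y b - fromBlocks a x y b * fromBlocks 1 0 0 (-1) :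
      Matrix (Fin 2 ⊕ Fin 2) (Fin 2 ⊕ Fin 2) ℂ) = fromBlocks 0 ((2 : ℂ) • x) (-((2 : ℂ) • y)) 0 := by
    rw [fromBlocks_multiply, fromBlocks_multiply, sub_eq_add_neg, fromBlocks_neg, fromBlocks_add]
    congr 1 <;> simp [two_smul]
  rw [e1] at h1
  have h2 := H.br _ H.D _ h1
  have e2 : (fromBlocks 1 0 0 (-1) * fromBlocks 0 ((2 : ℂ) • x) (-((2 : ℂ) • y)) 0 -
      fromBlocks 0 ((2 : ℂ) • x) (-((2 : ℂ) • y)) 0 * fromBlocks 1 0 0 (-1) :
      Matrix (Fin 2 ⊕ Fin 2) (Fin 2 ⊕ Fin 2) ℂ) =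
      fromBlocks 0 ((4 : ℂ) • x) ((4 : ℂ) • y) 0 := by
    rw [fromBlocks_multiply, fromBlocks_multiply, sub_eq_add_neg, fromBlocks_neg, fromBlocks_add]
    congr 1
    · simp
    · simp only [one_mul, zero_mul, mul_zero, mul_neg, mul_one, add_zero, zero_add, neg_neg]
      module
    · simp only [one_mul, zero_mul, mul_zero, mul_neg, neg_mul, mul_one, add_zero, zero_add, neg_neg]
      module
    · simp
  rw [e2] at h2
  have h3 : fromBlocks 0 x 0 0 ∈ G := by
    have h4 := G.smul_mem (8 : ℂ)⁻¹ (G.add_mem h2 (G.smul_mem (2 : ℂ) h1))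
    have e3 : (8 : ℂ)⁻¹ • (fromBlocks 0 ((4 : ℂ) • x) ((4 : ℂ) • y) 0 +
        (2 : ℂ) • fromBlocks 0 ((2 : ℂ) • x) (-((2 : ℂ) • y)) 0) = fromBlocks 0 x 0 0 := by
      rw [fromBlocks_smul, fromBlocks_add, fromBlocks_smul]
      congr 1
      · simp
      · module
      · module
      · simp
    rwa [e3] at h4
  have h5 : fromBlocks 0 0 y 0 ∈ G := by
    have h4 := G.smul_mem (8 : ℂ)⁻¹ (G.sub_mem h2 (G.smul_mem (2 : ℂ) h1))
    have e3 : (8 : ℂ)⁻¹ • (fromBlocks 0 ((4 : ℂ) • x) ((4 : ℂ) • y) 0 -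
        (2 : ℂ) • fromBlocks 0 ((2 : ℂ) • x) (-((2 : ℂ) • y)) 0) = fromBlocks 0 0 y 0 := by
      rw [fromBlocks_smul, sub_eq_add_neg, fromBlocks_neg, fromBlocks_add, fromBlocks_smul]
      congr 1
      · simp
      · module
      · module
      · simp
    rwa [e3] at h4
  refine ⟨h3, h5, ?_⟩
  have h6 := G.sub_mem (G.sub_mem h h3) h5
  have e3 : fromBlocks a x y b - fromBlocks 0 x 0 0 - fromBlocks 0 0 y 0 = fromBlocks a 0 0 b := by
    rw [sub_eq_add_neg, sub_eq_add_neg, fromBlocks_neg, fromBlocks_neg, fromBlocks_add,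
      fromBlocks_add]
    congr 1 <;> simp
  rwa [e3] at h6

theorem adP {x : Matrix (Fin 2) (Fin 2) ℂ} (h : fromBlocks 0 x 0 0 ∈ G) :
    fromBlocks 0 0 xᴴ 0 ∈ G := by
  have h1 := H.ad _ h
  rw [fromBlocks_conjTranspose, conjTranspose_zero] at h1
  exact h1

theorem adN {x : Matrix (Fin 2) (Fin 2) ℂ} (h : fromBlocks 0 0 x 0 ∈ G) :
    fromBlocks 0 xᴴ 0 0 ∈ G := by
  have h1 := H.ad _ h
  rw [fromBlocks_conjTranspose, conjTranspose_zero] at h1
  exact h1

theorem ad0 {a b : Matrix (Fin 2) (Fin 2) ℂ} (h : fromBlocks a 0 0 b ∈ G) :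
    fromBlocks aᴴ 0 0 bᴴ ∈ G := by
  have h1 := H.ad _ h
  rw [fromBlocks_conjTranspose, conjTranspose_zero] at h1
  exact h1

theorem brPN {x y : Matrix (Fin 2) (Fin 2) ℂ} (h : fromBlocks 0 x 0 0 ∈ G)
    (h' : fromBlocks 0 0 y 0 ∈ G) : fromBlocks (x * y) 0 0 (-(y * x)) ∈ G := by
  have h1 := H.br _ h _ h'
  have e1 : (fromBlocks 0 x 0 0 * fromBlocks 0 0 y 0 - fromBlocks 0 0 y 0 * fromBlocks 0 x 0 0 :
      Matrix (Fin 2 ⊕ Fin 2) (Fin 2 ⊕ Fin 2) ℂ) = fromBlocks (x * y) 0 0 (-(y * x)) := by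
    rw [fromBlocks_multiply, fromBlocks_multiply, sub_eq_add_neg, fromBlocks_neg, fromBlocks_add]
    congr 1 <;> simp
  rwa [e1] at h1

theorem br0P {a b x : Matrix (Fin 2) (Fin 2) ℂ} (h : fromBlocks a 0 0 b ∈ G)
    (h' : fromBlocks 0 x 0 0 ∈ G) : fromBlocks 0 (a * x - x * b) 0 0 ∈ G := by
  have h1 := H.br _ h _ h'
  have e1 : (fromBlocks a 0 0 b * fromBlocks 0 x 0 0 - fromBlocks 0 x 0 0 * fromBlocks a 0 0 b :
      Matrix (Fin 2 ⊕ Fin 2) (Fin 2 ⊕ Fin 2) ℂ) = fromBlocks 0 (a * x - x * b) 0 0 := by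
    rw [fromBlocks_multiply, fromBlocks_multiply, sub_eq_add_neg, fromBlocks_neg, fromBlocks_add]
    congr 1 <;> simp [sub_eq_add_neg]
  rwa [e1] at h1

theorem tr0 {a b : Matrix (Fin 2) (Fin 2) ℂ} (h : fromBlocks a 0 0 b ∈ G) :
    trace a + trace b = 0 := by
  have h1 := H.tr _ h
  rw [trace, Fintype.sum_sum_type] at h1
  exact h1

omit H in
theorem smulP {x : Matrix (Fin 2) (Fin 2) ℂ} (c : ℂ) (h : fromBlocks 0 x 0 0 ∈ G) :
    fromBlocks 0 (c • x) 0 0 ∈ G := by
  have h1 := G.smul_mem c h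
  rwa [fromBlocks_smul, smul_zero] at h1

omit H in
theorem addP {x x' : Matrix (Fin 2) (Fin 2) ℂ} (h : fromBlocks 0 x 0 0 ∈ G)
    (h' : fromBlocks 0 x' 0 0 ∈ G) : fromBlocks 0 (x + x') 0 0 ∈ G := by
  have h1 := G.add_mem h h'
  rwa [fromBlocks_add, add_zero] at h1

omit H in
theorem subP {x x' : Matrix (Fin 2) (Fin 2) ℂ} (h : fromBlocks 0 x 0 0 ∈ G)
    (h' : fromBlocks 0 x' 0 0 ∈ G) : fromBlocks 0 (x - x') 0 0 ∈ G := by
  have h1 := G.sub_mem h h'
  rw [sub_eq_add_neg, fromBlocks_neg, fromBlocks_add] at h1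
  simpa [sub_eq_add_neg] using h1

/-- The positive part is not zero. -/
theorem exists_pos : ∃ x, x ≠ 0 ∧ fromBlocks 0 x 0 0 ∈ G := by
  by_contra hcon
  push Not at hcon
  have h0 : ∀ x, fromBlocks 0 x 0 0 ∈ G → x = 0 := fun x hx => by
    by_contra h
    exact hcon x h hx
  refine H.no_zero {Sum.inr 0, Sum.inr 1} (i0 := Sum.inr 0) (j0 := Sum.inl 0) (by simp) (by simp)
    fun X hX i hi j hj => ?_
  obtain ⟨a, x, y, b, rfl⟩ : ∃ a x y b, X = fromBlocks a x y b :=
    ⟨_, _, _, _, (fromBlocks_toBlocks X).symm⟩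
  have h1 := h0 _ (H.adN (H.split hX).2.1)
  rw [conjTranspose_eq_zero] at h1
  rcases j with j | j
  · rcases i with i | i
    · simp at hi
    · rw [fromBlocks_apply₂₁, h1, Matrix.zero_apply]
  · exfalso
    apply hj
    fin_cases j <;> simp

open scoped ComplexOrder in
/-- **The case without elements of rank one.** -/
theorem main_inv (h : ∀ x, x ≠ 0 → fromBlocks 0 x 0 0 ∈ G → det x ≠ 0) :
    ∃ J : Matrix (Fin 2 ⊕ Fin 2) (Fin 2 ⊕ Fin 2) ℂ, J ≠ 0 ∧ ∀ X ∈ G, Xᵀ * J + J * X = 0 := by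
  obtain ⟨u, hu0, hu⟩ := H.exists_pos
  have hdu := h u hu0 hu
  -- the positive part has dimension one
  have h1 : ∀ x, fromBlocks 0 x 0 0 ∈ G → ∃ s : ℂ, x = s • u := by
    intro x hx
    obtain ⟨m, hm⟩ : ∃ m, m = x 0 0 * u 1 1 + x 1 1 * u 0 0 - x 0 1 * u 1 0 - x 1 0 * u 0 1 :=
      ⟨_, rfl⟩
    obtain ⟨r, hr⟩ := IsAlgClosed.exists_pow_nat_eq (m ^ 2 - 4 * det u * det x) (n := 2)
      (by norm_num)
    refine ⟨(m + r) / (2 * det u), ?_⟩
    obtain ⟨s, hs⟩ : ∃ s, s = (m + r) / (2 * det u) := ⟨_, rfl⟩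
    rw [← hs]
    by_contra hne
    refine h _ (sub_ne_zero.2 hne) (subP hx (smulP s hu)) ?_
    have h2 : det (x - s • u) = det u * s ^ 2 - m * s + det x := by
      rw [det_fin_two, det_fin_two, det_fin_two, hm]
      simp only [Matrix.sub_apply, Matrix.smul_apply, smul_eq_mul]
      ring
    have h3 : s * (2 * det u) = m + r := by
      rw [hs, div_mul_cancel₀]
      exact mul_ne_zero two_ne_zero hdu
    rw [h2]
    have h4 : (4 * det u) * (det u * s ^ 2 - m * s + det x) = 0 := by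
      linear_combination (2 * det u * s - m + r) * h3 + hr
    exact (mul_eq_zero.1 h4).resolve_left (mul_ne_zero (by norm_num) hdu)
  have hunit : IsUnit (det u) := isUnit_iff_ne_zero.2 hdu
  -- the adjoint is the inverse
  obtain ⟨t, ht⟩ : ∃ t : ℂ, u * uᴴ = t • (1 : Matrix (Fin 2) (Fin 2) ℂ) := by
    obtain ⟨s, hs⟩ := h1 _ (H.br0P (H.brPN hu (H.adP hu)) hu)
    refine ⟨2⁻¹ * s, ?_⟩
    have h2 : u * uᴴ * u = (2⁻¹ * s) • u := by
      rw [mul_smul, ← hs, mul_neg, sub_neg_eq_add, mul_assoc u uᴴ u, ← two_smul ℂ (u * (uᴴ * u)),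
        smul_smul]
      norm_num
    calc u * uᴴ = u * uᴴ * (u * u⁻¹) := by rw [Matrix.mul_nonsing_inv _ hunit, mul_one]
    _ = (2⁻¹ * s) • u * u⁻¹ := by rw [← mul_assoc, h2]
    _ = _ := by rw [Matrix.smul_mul, Matrix.mul_nonsing_inv _ hunit]
  have ht' : uᴴ * u = t • (1 : Matrix (Fin 2) (Fin 2) ℂ) := by
    calc uᴴ * u = u⁻¹ * (u * uᴴ) * u := by
          rw [← mul_assoc, Matrix.nonsing_inv_mul _ hunit, one_mul]
    _ = _ := by
      rw [ht, Matrix.mul_smul, mul_one, Matrix.smul_mul, Matrix.nonsing_inv_mul _ hunit]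
  have ht0 : t ≠ 0 := by
    rintro rfl
    rw [zero_smul] at ht
    exact hu0 (Matrix.self_mul_conjTranspose_eq_zero.1 ht)
  obtain ⟨K, hK⟩ : ∃ K, K = ep * uᴴ := ⟨_, rfl⟩
  refine ⟨fromBlocks 0 Kᵀ K 0, ?_, ?_⟩
  · intro h0
    have h2 : K = 0 := by
      have h3 := congrArg toBlocks₂₁ h0
      rw [toBlocks_fromBlocks₂₁] at h3
      exact h3
    rw [hK] at h2
    have h3 : ep * (ep * uᴴ) = 0 := by rw [h2, mul_zero]
    rw [← mul_assoc, ep_sq, neg_one_mul, neg_eq_zero, conjTranspose_eq_zero] at h3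
    exact hu0 h3
  · intro X hX
    obtain ⟨a, x, y, b, rfl⟩ : ∃ a x y b, X = fromBlocks a x y b :=
      ⟨_, _, _, _, (fromBlocks_toBlocks X).symm⟩
    obtain ⟨hx, hy, hab⟩ := H.split hX
    have c4 : K * x + (K * x)ᵀ = 0 := by
      obtain ⟨s, rfl⟩ := h1 x hx
      rw [hK, Matrix.mul_smul, mul_assoc, ht', Matrix.mul_smul, mul_one, transpose_smul,
        transpose_smul, ep_T, smul_neg, smul_neg, add_neg_cancel]
    have c1 : yᵀ * K + (yᵀ * K)ᵀ = 0 := by
      obtain ⟨s, hs⟩ := h1 _ (H.adN hy)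
      have h2 : y = star s • uᴴ := by
        rw [← conjTranspose_smul, ← hs, conjTranspose_conjTranspose]
      rw [h2, hK, transpose_smul, Matrix.smul_mul, ← mul_assoc, ep_det, transpose_smul,
        transpose_smul, ep_T, smul_neg, smul_neg, add_neg_cancel]
    have c3 : bᵀ * K + K * a = 0 := by
      obtain ⟨s, hs⟩ := h1 _ (H.br0P hab hu)
      have h2 : a * u = u * b + s • u := by rw [← hs]; abel
      have h3 : uᴴ * a = b * uᴴ + s • uᴴ := by
        have h4 : t • (uᴴ * a) = t • (b * uᴴ + s • uᴴ) := by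
          calc t • (uᴴ * a) = uᴴ * a * (t • (1 : Matrix (Fin 2) (Fin 2) ℂ)) := by
                rw [Matrix.mul_smul, mul_one]
          _ = uᴴ * (a * u) * uᴴ := by rw [← ht]; simp only [mul_assoc]
          _ = (uᴴ * u) * b * uᴴ + s • ((uᴴ * u) * uᴴ) := by
                rw [h2, mul_add, add_mul, Matrix.mul_smul, Matrix.smul_mul]
                simp only [mul_assoc]
          _ = _ := by
                rw [ht', Matrix.smul_mul, one_mul, Matrix.smul_mul, Matrix.smul_mul, one_mul,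
                  smul_add, smul_comm s t]
        exact smul_right_injective _ ht0 h4
      have h6 : trace a = trace b + 2 * s := by
        have h7 : trace (a * u * uᴴ) = trace ((u * b + s • u) * uᴴ) := by rw [h2]
        rw [mul_assoc, ht, add_mul, trace_add, mul_assoc u b uᴴ, trace_mul_comm u, mul_assoc b, ht',
          Matrix.smul_mul, ht, Matrix.mul_smul, mul_one, Matrix.mul_smul, mul_one, trace_smul,
          trace_smul, trace_smul, trace_smul, trace_one, Fintype.card_fin] at h7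
        simp only [smul_eq_mul] at h7
        have h8 : t * (trace a - (trace b + 2 * s)) = 0 := by
          push_cast at h7
          linear_combination h7
        exact sub_eq_zero.1 ((mul_eq_zero.1 h8).resolve_left ht0)
      have h9 := H.tr0 hab
      have h10 : trace b + s = 0 := by
        rw [h6] at h9
        linear_combination (2 : ℂ)⁻¹ * h9
      have h11 : bᵀ * K + K * a = (bᵀ * ep + ep * b + s • ep) * uᴴ := by
        rw [hK, mul_assoc ep uᴴ a, h3, mul_add, add_mul, add_mul, Matrix.mul_smul, Matrix.smul_mul]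
        simp only [mul_assoc, add_assoc]
      rw [h11, ep_tr, ← add_smul, h10, zero_smul, zero_mul]
    rw [fromBlocks_transpose, fromBlocks_multiply, fromBlocks_multiply, fromBlocks_add,
      ← fromBlocks_zero]
    congr 1
    · rw [mul_zero, zero_mul, zero_add, zero_add]
      rw [transpose_mul, transpose_transpose] at c1
      exact c1
    · rw [mul_zero, zero_mul, add_zero, zero_add]
      have h2 := congrArg transpose c3
      rw [transpose_add, transpose_mul, transpose_mul, transpose_transpose, transpose_zero] at h2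
      rw [add_comm]
      exact h2
    · rw [mul_zero, zero_mul, add_zero, zero_add]
      exact c3
    · rw [mul_zero, zero_mul, add_zero, add_zero, add_comm]
      rw [transpose_mul] at c4
      exact c4

/-- **The case with the matrix unit.** -/
theorem main_unit (h : fromBlocks 0 !![1, 0; 0, 0] 0 0 ∈ G) :
    (∀ Y, fromBlocks 0 Y 0 0 ∈ G) ∨
      ∃ J : Matrix (Fin 2 ⊕ Fin 2) (Fin 2 ⊕ Fin 2) ℂ, J ≠ 0 ∧ ∀ X ∈ G, Xᵀ * J + J * X = 0 := by
  have hEH : (!![1, 0; 0, 0] : Matrix (Fin 2) (Fin 2) ℂ)ᴴ = !![1, 0; 0, 0] := by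
    ext i j
    fin_cases i <;> fin_cases j <;> simp
  have hH : (!![0, 1; 0, 0] : Matrix (Fin 2) (Fin 2) ℂ)ᴴ = !![0, 0; 1, 0] := by
    ext i j
    fin_cases i <;> fin_cases j <;> simp
  have hH' : (!![0, 0; 1, 0] : Matrix (Fin 2) (Fin 2) ℂ)ᴴ = !![0, 1; 0, 0] := by
    ext i j
    fin_cases i <;> fin_cases j <;> simp
  have hN : fromBlocks 0 0 !![1, 0; 0, 0] 0 ∈ G := by
    have h1 := H.adP h
    rwa [hEH] at h1
  have h0 : fromBlocks !![1, 0; 0, 0] 0 0 (-!![1, 0; 0, 0]) ∈ G := by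
    have h1 := H.brPN h hN
    have h2 : (!![1, 0; 0, 0] * !![1, 0; 0, 0] : Matrix (Fin 2) (Fin 2) ℂ) = !![1, 0; 0, 0] := by
      ext i j
      fin_cases i <;> fin_cases j <;> simp [Matrix.mul_apply, Fin.sum_univ_two]
    rwa [h2] at h1
  -- components of elements of the positive part
  have hP : ∀ p q r s : ℂ, fromBlocks 0 !![p, q; r, s] 0 0 ∈ G →
      fromBlocks 0 !![0, q; r, 0] 0 0 ∈ G ∧ fromBlocks 0 !![0, 0; 0, s] 0 0 ∈ G := by
    intro p q r s hx
    have h1 := H.br0P h0 hx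
    have h2 := subP h1 (smulP (2 * p) h)
    have e1 : !![1, 0; 0, 0] * !![p, q; r, s] - !![p, q; r, s] * -!![1, 0; 0, 0] -
        (2 * p) • !![1, 0; 0, 0] = (!![0, q; r, 0] : Matrix (Fin 2) (Fin 2) ℂ) := by
      ext i j
      fin_cases i <;> fin_cases j <;> simp [Matrix.mul_apply, Fin.sum_univ_two]
      ring
    rw [e1] at h2
    refine ⟨h2, ?_⟩
    have h3 := subP (subP hx h2) (smulP p h)
    have e2 : !![p, q; r, s] - !![0, q; r, 0] - p • !![1, 0; 0, 0] =
        (!![0, 0; 0, s] : Matrix (Fin 2) (Fin 2) ℂ) := by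
      ext i j
      fin_cases i <;> fin_cases j <;> simp
    rwa [e2] at h3
  have h0P : ∀ a1 a2 a3 a4 b1 b2 b3 b4 : ℂ,
      fromBlocks !![a1, a2; a3, a4] 0 0 !![b1, b2; b3, b4] ∈ G →
      fromBlocks 0 !![0, -b2; a3, 0] 0 0 ∈ G := by
    intro a1 a2 a3 a4 b1 b2 b3 b4 hab
    have h1 := H.br0P hab h
    have e1 : !![a1, a2; a3, a4] * !![1, 0; 0, 0] - !![1, 0; 0, 0] * !![b1, b2; b3, b4] =
        (!![a1 - b1, -b2; a3, 0] : Matrix (Fin 2) (Fin 2) ℂ) := by
      ext i j
      fin_cases i <;> fin_cases j <;> simp [Matrix.mul_apply, Fin.sum_univ_two]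
    rw [e1] at h1
    exact (hP _ _ _ _ h1).1
  have had0 : ∀ a1 a2 a3 a4 b1 b2 b3 b4 : ℂ,
      fromBlocks !![a1, a2; a3, a4] 0 0 !![b1, b2; b3, b4] ∈ G →
      fromBlocks !![star a1, star a3; star a2, star a4] 0 0
        !![star b1, star b3; star b2, star b4] ∈ G := by
    intro a1 a2 a3 a4 b1 b2 b3 b4 hab
    have h1 := H.ad0 hab
    have e1 : ∀ a1 a2 a3 a4 : ℂ, (!![a1, a2; a3, a4] : Matrix (Fin 2) (Fin 2) ℂ)ᴴ =
        !![star a1, star a3; star a2, star a4] := by
      intro a1 a2 a3 a4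
      ext i j
      fin_cases i <;> fin_cases j <;> simp
    rwa [e1, e1] at h1
  have hadN : ∀ a1 a2 a3 a4 : ℂ, fromBlocks 0 0 !![a1, a2; a3, a4] 0 ∈ G →
      fromBlocks 0 !![star a1, star a3; star a2, star a4] 0 0 ∈ G := by
    intro a1 a2 a3 a4 hab
    have h1 := H.adN hab
    have e1 : (!![a1, a2; a3, a4] : Matrix (Fin 2) (Fin 2) ℂ)ᴴ =
        !![star a1, star a3; star a2, star a4] := by
      ext i j
      fin_cases i <;> fin_cases j <;> simp
    rwa [e1] at h1
  have hsm12 : ∀ c : ℂ, c ≠ 0 → fromBlocks 0 !![0, c; 0, 0] 0 0 ∈ G →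
      fromBlocks 0 !![0, 1; 0, 0] 0 0 ∈ G := by
    intro c hc hx
    have h1 := smulP c⁻¹ hx
    have e1 : c⁻¹ • (!![0, c; 0, 0] : Matrix (Fin 2) (Fin 2) ℂ) = !![0, 1; 0, 0] := by
      ext i j
      fin_cases i <;> fin_cases j <;> simp [hc]
    rwa [e1] at h1
  have hsm21 : ∀ c : ℂ, c ≠ 0 → fromBlocks 0 !![0, 0; c, 0] 0 0 ∈ G →
      fromBlocks 0 !![0, 0; 1, 0] 0 0 ∈ G := by
    intro c hc hx
    have h1 := smulP c⁻¹ hx
    have e1 : c⁻¹ • (!![0, 0; c, 0] : Matrix (Fin 2) (Fin 2) ℂ) = !![0, 0; 1, 0] := by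
      ext i j
      fin_cases i <;> fin_cases j <;> simp [hc]
    rwa [e1] at h1
  have hsm22 : ∀ c : ℂ, c ≠ 0 → fromBlocks 0 !![0, 0; 0, c] 0 0 ∈ G →
      fromBlocks 0 !![0, 0; 0, 1] 0 0 ∈ G := by
    intro c hc hx
    have h1 := smulP c⁻¹ hx
    have e1 : c⁻¹ • (!![0, 0; 0, c] : Matrix (Fin 2) (Fin 2) ℂ) = !![0, 0; 0, 1] := by
      ext i j
      fin_cases i <;> fin_cases j <;> simp [hc]
    rwa [e1] at h1
  have hoff : ∀ q r : ℂ, fromBlocks 0 !![0, q; r, 0] 0 0 ∈ G → q = 0 →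
      fromBlocks 0 !![0, 0; r, 0] 0 0 ∈ G := by
    rintro q r hx rfl
    exact hx
  -- coordinates
  have hco : ∀ X ∈ G, ∃ a1 a2 a3 a4 x1 x2 x3 x4 y1 y2 y3 y4 b1 b2 b3 b4 : ℂ,
      X = fromBlocks !![a1, a2; a3, a4] !![x1, x2; x3, x4] !![y1, y2; y3, y4]
        !![b1, b2; b3, b4] ∧
      fromBlocks 0 !![x1, x2; x3, x4] 0 0 ∈ G ∧
      fromBlocks 0 !![star y1, star y3; star y2, star y4] 0 0 ∈ G ∧
      fromBlocks !![a1, a2; a3, a4] 0 0 !![b1, b2; b3, b4] ∈ G ∧
      fromBlocks !![star a1, star a3; star a2, star a4] 0 0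
        !![star b1, star b3; star b2, star b4] ∈ G := by
    intro X hX
    refine ⟨X.toBlocks₁₁ 0 0, X.toBlocks₁₁ 0 1, X.toBlocks₁₁ 1 0, X.toBlocks₁₁ 1 1,
      X.toBlocks₁₂ 0 0, X.toBlocks₁₂ 0 1, X.toBlocks₁₂ 1 0, X.toBlocks₁₂ 1 1,
      X.toBlocks₂₁ 0 0, X.toBlocks₂₁ 0 1, X.toBlocks₂₁ 1 0, X.toBlocks₂₁ 1 1,
      X.toBlocks₂₂ 0 0, X.toBlocks₂₂ 0 1, X.toBlocks₂₂ 1 0, X.toBlocks₂₂ 1 1, ?_⟩
    have h1 : X = fromBlocks !![X.toBlocks₁₁ 0 0, X.toBlocks₁₁ 0 1; X.toBlocks₁₁ 1 0,
        X.toBlocks₁₁ 1 1] !![X.toBlocks₁₂ 0 0, X.toBlocks₁₂ 0 1; X.toBlocks₁₂ 1 0,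
        X.toBlocks₁₂ 1 1] !![X.toBlocks₂₁ 0 0, X.toBlocks₂₁ 0 1; X.toBlocks₂₁ 1 0,
        X.toBlocks₂₁ 1 1] !![X.toBlocks₂₂ 0 0, X.toBlocks₂₂ 0 1; X.toBlocks₂₂ 1 0,
        X.toBlocks₂₂ 1 1] := by
      rw [← Matrix.eta_fin_two, ← Matrix.eta_fin_two, ← Matrix.eta_fin_two, ← Matrix.eta_fin_two,
        fromBlocks_toBlocks]
    have h2 := hX
    rw [h1] at h2
    obtain ⟨h3, h4, h5⟩ := H.split h2
    exact ⟨h1, h3, hadN _ _ _ _ h4, h5, had0 _ _ _ _ _ _ _ _ h5⟩
  by_cases h12 : fromBlocks 0 !![0, 1; 0, 0] 0 0 ∈ G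
  · by_cases h21 : fromBlocks 0 !![0, 0; 1, 0] 0 0 ∈ G
    · -- everything
      left
      have h1 : fromBlocks !![0, 1; 0, 0] 0 0 0 ∈ G := by
        have h2 := H.adP h21
        rw [hH'] at h2
        have h3 := H.brPN h h2
        have e1 : (!![1, 0; 0, 0] * !![0, 1; 0, 0] : Matrix (Fin 2) (Fin 2) ℂ) =
            !![0, 1; 0, 0] := by
          ext i j
          fin_cases i <;> fin_cases j <;> simp [Matrix.mul_apply, Fin.sum_univ_two]
        have e2 : -(!![0, 1; 0, 0] * !![1, 0; 0, 0] : Matrix (Fin 2) (Fin 2) ℂ) = 0 := by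
          ext i j
          fin_cases i <;> fin_cases j <;> simp [Matrix.mul_apply, Fin.sum_univ_two]
        rwa [e1, e2] at h3
      have h2 := H.ad0 h1
      rw [hH, conjTranspose_zero] at h2
      have h3 := H.br0P h2 h12
      have e1 : !![0, 0; 1, 0] * !![0, 1; 0, 0] - !![0, 1; 0, 0] * 0 =
          (!![0, 0; 0, 1] : Matrix (Fin 2) (Fin 2) ℂ) := by
        ext i j
        fin_cases i <;> fin_cases j <;> simp [Matrix.mul_apply, Fin.sum_univ_two]
      rw [e1] at h3
      intro Y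
      have h4 := addP (addP (smulP (Y 0 0) h) (smulP (Y 0 1) h12))
        (addP (smulP (Y 1 0) h21) (smulP (Y 1 1) h3))
      have e2 : Y 0 0 • !![1, 0; 0, 0] + Y 0 1 • !![0, 1; 0, 0] +
          (Y 1 0 • !![0, 0; 1, 0] + Y 1 1 • !![0, 0; 0, 1]) = Y := by
        ext i j
        fin_cases i <;> fin_cases j <;> simp
      rwa [e2] at h4
    · -- an invariant line
      exfalso
      have hq : ∀ q r : ℂ, fromBlocks 0 !![0, q; r, 0] 0 0 ∈ G → r = 0 := by
        intro q r hx
        by_contra hr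
        apply h21
        refine hsm21 r hr ?_
        have h1 := subP hx (smulP q h12)
        have e1 : !![0, q; r, 0] - q • !![0, 1; 0, 0] =
            (!![0, 0; r, 0] : Matrix (Fin 2) (Fin 2) ℂ) := by
          ext i j
          fin_cases i <;> fin_cases j <;> simp
        rwa [e1] at h1
      have h22 : fromBlocks 0 !![0, 0; 0, 1] 0 0 ∉ G := by
        intro h22
        have h2 := H.adP h12
        rw [hH] at h2
        have h3 := H.brPN h22 h2
        have e1 : (!![0, 0; 0, 1] * !![0, 0; 1, 0] : Matrix (Fin 2) (Fin 2) ℂ) =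
            !![0, 0; 1, 0] := by
          ext i j
          fin_cases i <;> fin_cases j <;> simp [Matrix.mul_apply, Fin.sum_univ_two]
        have e2 : -(!![0, 0; 1, 0] * !![0, 0; 0, 1] : Matrix (Fin 2) (Fin 2) ℂ) =
            !![0, 0; 0, 0] := by
          ext i j
          fin_cases i <;> fin_cases j <;> simp [Matrix.mul_apply, Fin.sum_univ_two]
        rw [e1, e2] at h3
        exact one_ne_zero (hq _ _ (h0P _ _ _ _ _ _ _ _ h3))
      have hx34 : ∀ p q r s : ℂ, fromBlocks 0 !![p, q; r, s] 0 0 ∈ G → r = 0 ∧ s = 0 := by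
        intro p q r s hx
        obtain ⟨h1, h2⟩ := hP _ _ _ _ hx
        refine ⟨hq _ _ h1, ?_⟩
        by_contra hs
        exact h22 (hsm22 s hs h2)
      refine H.no_zero {Sum.inl 0, Sum.inr 0, Sum.inr 1} (i0 := Sum.inl 0) (j0 := Sum.inl 1)
        (by simp) (by simp) fun X hX i hi j hj => ?_
      obtain ⟨a1, a2, a3, a4, x1, x2, x3, x4, y1, y2, y3, y4, b1, b2, b3, b4, rfl, hx, hy, hab,
        hab'⟩ := hco X hX
      have t1 := hq _ _ (h0P _ _ _ _ _ _ _ _ hab')
      have t2 := hx34 _ _ _ _ hy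
      have hj' : j = Sum.inl 1 := by
        rcases j with j | j <;> fin_cases j <;> simp at hj ⊢
      subst hj'
      rcases i with i | i <;> fin_cases i
      · simpa using t1
      · simp at hi
      · simpa using t2.1
      · simpa using t2.2
  · by_cases h21 : fromBlocks 0 !![0, 0; 1, 0] 0 0 ∈ G
    · -- an invariant line
      exfalso
      have hq : ∀ q r : ℂ, fromBlocks 0 !![0, q; r, 0] 0 0 ∈ G → q = 0 := by
        intro q r hx
        by_contra hr
        apply h12
        refine hsm12 q hr ?_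
        have h1 := subP hx (smulP r h21)
        have e1 : !![0, q; r, 0] - r • !![0, 0; 1, 0] =
            (!![0, q; 0, 0] : Matrix (Fin 2) (Fin 2) ℂ) := by
          ext i j
          fin_cases i <;> fin_cases j <;> simp
        rwa [e1] at h1
      have h22 : fromBlocks 0 !![0, 0; 0, 1] 0 0 ∉ G := by
        intro h22
        have h2 := H.adP h21
        rw [hH'] at h2
        have h3 := H.brPN h22 h2
        have e1 : (!![0, 0; 0, 1] * !![0, 1; 0, 0] : Matrix (Fin 2) (Fin 2) ℂ) =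
            !![0, 0; 0, 0] := by
          ext i j
          fin_cases i <;> fin_cases j <;> simp [Matrix.mul_apply, Fin.sum_univ_two]
        have e2 : -(!![0, 1; 0, 0] * !![0, 0; 0, 1] : Matrix (Fin 2) (Fin 2) ℂ) =
            !![0, -1; 0, 0] := by
          ext i j
          fin_cases i <;> fin_cases j <;> simp [Matrix.mul_apply, Fin.sum_univ_two]
        rw [e1, e2] at h3
        have h4 := hq _ _ (h0P _ _ _ _ _ _ _ _ h3)
        rw [neg_neg] at h4
        exact one_ne_zero h4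
      have hx24 : ∀ p q r s : ℂ, fromBlocks 0 !![p, q; r, s] 0 0 ∈ G → q = 0 ∧ s = 0 := by
        intro p q r s hx
        obtain ⟨h1, h2⟩ := hP _ _ _ _ hx
        refine ⟨hq _ _ h1, ?_⟩
        by_contra hs
        exact h22 (hsm22 s hs h2)
      refine H.no_zero {Sum.inl 0, Sum.inl 1, Sum.inr 0} (i0 := Sum.inl 0) (j0 := Sum.inr 1)
        (by simp) (by simp) fun X hX i hi j hj => ?_
      obtain ⟨a1, a2, a3, a4, x1, x2, x3, x4, y1, y2, y3, y4, b1, b2, b3, b4, rfl, hx, hy, hab,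
        hab'⟩ := hco X hX
      have t1 := hq _ _ (h0P _ _ _ _ _ _ _ _ hab)
      have t2 := hx24 _ _ _ _ hx
      have hj' : j = Sum.inr 1 := by
        rcases j with j | j <;> fin_cases j <;> simp at hj ⊢
      subst hj'
      rcases i with i | i <;> fin_cases i
      · simpa using t2.1
      · simpa using t2.2
      · simpa using t1
      · simp at hi
    · by_cases hex : ∃ q r : ℂ, (q ≠ 0 ∨ r ≠ 0) ∧ fromBlocks 0 !![0, q; r, 0] 0 0 ∈ G
      · -- the symplectic case
        right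
        obtain ⟨q, r, hqr, hw⟩ := hex
        have hq0 : q ≠ 0 := by
          rintro rfl
          rcases hqr with h1 | h1
          · exact h1 rfl
          · exact h21 (hsm21 r h1 hw)
        have hr0 : r ≠ 0 := by
          rintro rfl
          exact h12 (hsm12 q hq0 hw)
        obtain ⟨c, hc⟩ : ∃ c, c = r / q := ⟨_, rfl⟩
        have hc0 : c ≠ 0 := by
          rw [hc]
          exact div_ne_zero hr0 hq0
        have hw1 : fromBlocks 0 !![0, 1; c, 0] 0 0 ∈ G := by
          have h1 := smulP q⁻¹ hw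
          have e1 : q⁻¹ • (!![0, q; r, 0] : Matrix (Fin 2) (Fin 2) ℂ) = !![0, 1; c, 0] := by
            ext i j
            fin_cases i <;> fin_cases j <;> simp [hq0, hc, div_eq_inv_mul]
          rwa [e1] at h1
        have hq : ∀ q r : ℂ, fromBlocks 0 !![0, q; r, 0] 0 0 ∈ G → r = c * q := by
          intro q r hx
          by_contra hne
          apply h21
          refine hsm21 (r - c * q) (sub_ne_zero.2 hne) ?_
          have h1 := subP hx (smulP q hw1)
          have e1 : !![0, q; r, 0] - q • !![0, 1; c, 0] =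
              (!![0, 0; r - c * q, 0] : Matrix (Fin 2) (Fin 2) ℂ) := by
            ext i j
            fin_cases i <;> fin_cases j <;> simp
            ring
          rwa [e1] at h1
        have hdiag : ∀ a1 a2 a3 a4 b1 b2 b3 b4 : ℂ,
            fromBlocks !![a1, a2; a3, a4] 0 0 !![b1, b2; b3, b4] ∈ G →
            a1 + b1 = 0 ∧ a4 + b4 = 0 := by
          intro a1 a2 a3 a4 b1 b2 b3 b4 hab
          have h1 := H.br0P hab hw1
          have e1 : !![a1, a2; a3, a4] * !![0, 1; c, 0] - !![0, 1; c, 0] * !![b1, b2; b3, b4] =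
              (!![a2 * c - b3, a1 - b4; a4 * c - c * b1, a3 - c * b2] :
                Matrix (Fin 2) (Fin 2) ℂ) := by
            ext i j
            fin_cases i <;> fin_cases j <;> simp [Matrix.mul_apply, Fin.sum_univ_two]
          rw [e1] at h1
          have h2 := hq _ _ (hP _ _ _ _ h1).1
          have h3 := H.tr0 hab
          rw [Matrix.trace_fin_two, Matrix.trace_fin_two] at h3
          simp at h3
          have h4 : c * (a4 - b1 - (a1 - b4)) = 0 := by linear_combination h2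
          have h5 := (mul_eq_zero.1 h4).resolve_left hc0
          constructor
          · linear_combination (2 : ℂ)⁻¹ * h3 - (2 : ℂ)⁻¹ * h5
          · linear_combination (2 : ℂ)⁻¹ * h3 + (2 : ℂ)⁻¹ * h5
        have hcc : c * star c = 1 := by
          have h1 := H.adP hw1
          have e1 : (!![0, 1; c, 0] : Matrix (Fin 2) (Fin 2) ℂ)ᴴ = !![0, star c; 1, 0] := by
            ext i j
            fin_cases i <;> fin_cases j <;> simp
          rw [e1] at h1
          have h2 := H.brPN hw1 h1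
          have e2 : (!![0, 1; c, 0] * !![0, star c; 1, 0] : Matrix (Fin 2) (Fin 2) ℂ) =
              !![1, 0; 0, c * star c] := by
            ext i j
            fin_cases i <;> fin_cases j <;> simp [Matrix.mul_apply, Fin.sum_univ_two]
          have e3 : -(!![0, star c; 1, 0] * !![0, 1; c, 0] : Matrix (Fin 2) (Fin 2) ℂ) =
              !![-(star c * c), 0; 0, -1] := by
            ext i j
            fin_cases i <;> fin_cases j <;> simp [Matrix.mul_apply, Fin.sum_univ_two]
          rw [e2, e3] at h2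
          have h3 := (hdiag _ _ _ _ _ _ _ _ h2).1
          linear_combination -h3
        refine ⟨fromBlocks 0 !![c, 0; 0, 1] (-!![c, 0; 0, 1]) 0, ?_, ?_⟩
        · intro h0
          have h1 := congrFun (congrFun h0 (Sum.inl 0)) (Sum.inr 0)
          simp at h1
          exact hc0 h1
        · intro X hX
          obtain ⟨a1, a2, a3, a4, x1, x2, x3, x4, y1, y2, y3, y4, b1, b2, b3, b4, rfl, hx, hy, hab,
            hab'⟩ := hco X hX
          have t1 := hq _ _ (h0P _ _ _ _ _ _ _ _ hab)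
          have t2 := hq _ _ (h0P _ _ _ _ _ _ _ _ hab')
          obtain ⟨t3, t4⟩ := hdiag _ _ _ _ _ _ _ _ hab
          have t5 := hq _ _ (hP _ _ _ _ hx).1
          have t6 := hq _ _ (hP _ _ _ _ hy).1
          have t2' : a2 = star c * -b3 := by
            have h1 := congrArg star t2
            simpa using h1
          have t6' : y2 = star c * y3 := by
            have h1 := congrArg star t6
            simpa using h1
          rw [fromBlocks_transpose, fromBlocks_multiply, fromBlocks_multiply, fromBlocks_add,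
            ← fromBlocks_zero]
          congr 1
          · ext i j
            fin_cases i <;> fin_cases j <;> simp [Matrix.mul_apply, Fin.sum_univ_two]
            · ring
            · linear_combination c * t6' + y3 * hcc
            · linear_combination -c * t6' - y3 * hcc
          · ext i j
            fin_cases i <;> fin_cases j <;> simp [Matrix.mul_apply, Fin.sum_univ_two]
            · linear_combination c * t3
            · linear_combination t1
            · linear_combination c * t2' - b3 * hcc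
            · linear_combination t4
          · ext i j
            fin_cases i <;> fin_cases j <;> simp [Matrix.mul_apply, Fin.sum_univ_two]
            · linear_combination -c * t3
            · linear_combination -c * t2' + b3 * hcc
            · linear_combination -t1
            · linear_combination -t4
          · ext i j
            fin_cases i <;> fin_cases j <;> simp [Matrix.mul_apply, Fin.sum_univ_two]
            · ring
            · linear_combination t5
            · linear_combination -t5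
      · -- an invariant plane
        exfalso
        push Not at hex
        have hq : ∀ q r : ℂ, fromBlocks 0 !![0, q; r, 0] 0 0 ∈ G → q = 0 ∧ r = 0 := by
          intro q r hx
          constructor
          · by_contra hq
            exact hex q r (Or.inl hq) hx
          · by_contra hr
            exact hex q r (Or.inr hr) hx
        refine H.no_zero {Sum.inl 1, Sum.inr 1} (i0 := Sum.inl 1) (j0 := Sum.inl 0)
          (by simp) (by simp) fun X hX i hi j hj => ?_
        obtain ⟨a1, a2, a3, a4, x1, x2, x3, x4, y1, y2, y3, y4, b1, b2, b3, b4, rfl, hx, hy, hab,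
          hab'⟩ := hco X hX
        have t1 := hq _ _ (h0P _ _ _ _ _ _ _ _ hab)
        have t2 := hq _ _ (h0P _ _ _ _ _ _ _ _ hab')
        have t5 := hq _ _ (hP _ _ _ _ hx).1
        have t6 := hq _ _ (hP _ _ _ _ hy).1
        have t2' : b3 = 0 := by
          have h1 := t2.1
          simpa using h1
        have t6' : y3 = 0 := by
          have h1 := t6.1
          simpa using h1
        have hj' : j = Sum.inl 0 ∨ j = Sum.inr 0 := by
          rcases j with j | j <;> fin_cases j <;> simp at hj ⊢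
        have hi' : i = Sum.inl 1 ∨ i = Sum.inr 1 := by
          simpa using hi
        rcases hj' with rfl | rfl <;> rcases hi' with rfl | rfl
        · simpa using t1.2
        · simpa using t6'
        · simpa using t5.2
        · simpa using t2'

end C4

end Pool.Agent.Q176.UV
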