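import Mathlib
import Pool.Agent.Q180.UV.Stm2
import Pool.Agent.Q176.UV.Two4

/-!
# Project UV, job TWO: Lie algebras of format `(2, 2)`
-/

set_option autoImplicit false
set_option linter.unusedSectionVars false

namespace Pool.Agent.Q176.UV

open Matrix Module Pool.Agent.Y4.G

variable {B : Type*} [Fintype B] [DecidableEq B]

/-- A unit vector in the image of a projector. -/
theorem exists_unit {P : Matrix B B ℂ} (hPP : P * P = P) (h0 : P ≠ 0) :
    ∃ t : B → ℂ, P *ᵥ t = t ∧ star t ⬝ᵥ t = 1 := by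
  obtain ⟨j, hj⟩ : ∃ j, P *ᵥ Pi.single j 1 ≠ 0 := by
    by_contra hcon
    push Not at hcon
    apply h0
    ext i j
    have := congrFun (hcon j) i
    rwa [mulVec_single_one] at this
  obtain ⟨v, hv⟩ : ∃ v, v = P *ᵥ Pi.single j 1 := ⟨_, rfl⟩
  rw [← hv] at hj
  have hPv : P *ᵥ v = v := by rw [hv, mulVec_mulVec, hPP]
  obtain ⟨r, hr⟩ : ∃ r : ℝ, r = ∑ i, ‖v i‖ ^ 2 := ⟨_, rfl⟩
  have hr1 : star v ⬝ᵥ v = (r : ℂ) := by
    rw [hr, dotProduct]
    push_cast
    refine Finset.sum_congr rfl fun i _ => ?_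
    rw [Pi.star_apply]
    exact Complex.conj_mul' (v i)
  have hr0 : 0 < r := by
    obtain ⟨i, hi⟩ : ∃ i, v i ≠ 0 := by
      by_contra hcon
      push Not at hcon
      exact hj (funext hcon)
    rw [hr]
    refine Finset.sum_pos' (fun i _ => by positivity) ⟨i, Finset.mem_univ i, ?_⟩
    have := norm_pos_iff.2 hi
    positivity
  obtain ⟨s, hs⟩ : ∃ s : ℝ, s = (Real.sqrt r)⁻¹ := ⟨_, rfl⟩
  have hs2 : s * s * r = 1 := by
    rw [hs, ← mul_inv, Real.mul_self_sqrt hr0.le, inv_mul_cancel₀ hr0.ne']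
  refine ⟨(s : ℂ) • v, by rw [mulVec_smul, hPv], ?_⟩
  rw [star_smul, smul_dotProduct, dotProduct_smul, hr1, smul_eq_mul, smul_eq_mul]
  have h1 : star (s : ℂ) = (s : ℂ) := Complex.conj_ofReal s
  rw [h1, ← mul_assoc]
  exact_mod_cast hs2

/-- Splitting off a vector. -/
theorem split_vec {P : Matrix B B ℂ} (hPP : P * P = P) (hPH : Pᴴ = P) {t : B → ℂ}
    (ht : P *ᵥ t = t) (h1 : star t ⬝ᵥ t = 1) :
    (P - vecMulVec t (star t)) * (P - vecMulVec t (star t)) = P - vecMulVec t (star t) ∧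
      (P - vecMulVec t (star t))ᴴ = P - vecMulVec t (star t) ∧
      trace (P - vecMulVec t (star t)) = trace P - 1 := by
  have h2 : star t ᵥ* P = star t := by
    have h3 := congrArg star ht
    rw [star_mulVec, hPH] at h3
    exact h3
  refine ⟨?_, ?_, ?_⟩
  · rw [sub_mul, mul_sub, mul_sub, hPP, mul_vecMulVec, ht, vecMulVec_mul, h2, vmv_mul, h1, one_smul]
    abel
  · rw [conjTranspose_sub, hPH, conjTranspose_vecMulVec, star_star]
  · rw [trace_sub, trace_vecMulVec, dotProduct_comm, h1]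

open scoped ComplexOrder in
/-- A projector of trace two. -/
theorem exists_fr {P : Matrix B B ℂ} (hPP : P * P = P) (hPH : Pᴴ = P) (htr : trace P = 2) :
    ∃ R : Matrix B (Fin 2) ℂ, Rᴴ * R = 1 ∧ R * Rᴴ = P := by
  have h0 : P ≠ 0 := by
    rintro rfl
    rw [trace_zero] at htr
    exact two_ne_zero htr.symm
  obtain ⟨t1, a1, a2⟩ := exists_unit hPP h0
  obtain ⟨b1, b2, b3⟩ := split_vec hPP hPH a1 a2
  obtain ⟨P1, hP1⟩ : ∃ P1, P1 = P - vecMulVec t1 (star t1) := ⟨_, rfl⟩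
  rw [← hP1] at b1 b2 b3
  have h1 : P1 ≠ 0 := by
    intro h2
    rw [h2, trace_zero, htr] at b3
    norm_num at b3
  obtain ⟨t2, c1, c2⟩ := exists_unit b1 h1
  obtain ⟨d1, d2, d3⟩ := split_vec b1 b2 c1 c2
  obtain ⟨P2, hP2⟩ : ∃ P2, P2 = P1 - vecMulVec t2 (star t2) := ⟨_, rfl⟩
  rw [← hP2] at d1 d2 d3
  have h2 : P2 = 0 := by
    rw [← trace_conjTranspose_mul_self_eq_zero_iff, d2, d1, d3, b3, htr]
    norm_num
  have h3 : P1 *ᵥ t1 = 0 := by
    rw [hP1, sub_mulVec, a1, vecMulVec_mulVec]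
    simp [a2]
  have h4 : star t1 ⬝ᵥ t2 = 0 := by
    have h5 : star t1 ᵥ* P1 = 0 := by
      have h6 := congrArg star h3
      rw [star_mulVec, b2, star_zero] at h6
      exact h6
    rw [← c1, dotProduct_mulVec, h5, zero_dotProduct]
  have h5 : star t2 ⬝ᵥ t1 = 0 := by
    have h6 := congrArg star h4
    rwa [← star_dotProduct_star, star_star, star_zero] at h6
  refine ⟨Matrix.of fun i j => ![t1, t2] j i, ?_, ?_⟩
  · ext i j
    rw [mul_apply]
    fin_cases i <;> fin_cases j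
    · exact a2
    · exact h4
    · exact h5
    · exact c2
  · have h6 : P = vecMulVec t1 (star t1) + vecMulVec t2 (star t2) := by
      have h7 : P1 = vecMulVec t2 (star t2) := sub_eq_zero.1 (hP2.symm.trans h2)
      rw [← h7, hP1]
      abel
    rw [h6]
    ext i j
    rw [mul_apply, Fin.sum_univ_two]
    rfl

/-- Orthonormal bases of the images of the two projectors. -/
structure Fr (P Q : Matrix B B ℂ) (R1 R2 : Matrix B (Fin 2) ℂ) : Prop where
  o1 : R1ᴴ * R1 = 1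
  o2 : R2ᴴ * R2 = 1
  p1 : R1 * R1ᴴ = P
  p2 : R2 * R2ᴴ = Q

/-- The coordinates. -/
noncomputable def kap (R1 R2 : Matrix B (Fin 2) ℂ) :
    Matrix B B ℂ →ₗ[ℂ] Matrix (Fin 2 ⊕ Fin 2) (Fin 2 ⊕ Fin 2) ℂ where
  toFun X := (fromCols R1 R2)ᴴ * X * fromCols R1 R2
  map_add' X Y := by rw [Matrix.mul_add, Matrix.add_mul]
  map_smul' c X := by rw [Matrix.mul_smul, Matrix.smul_mul, RingHom.id_apply]

theorem kap_apply (R1 R2 : Matrix B (Fin 2) ℂ) (X : Matrix B B ℂ) :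
    kap R1 R2 X = (fromCols R1 R2)ᴴ * X * fromCols R1 R2 := rfl

theorem kap_blocks (R1 R2 : Matrix B (Fin 2) ℂ) (X : Matrix B B ℂ) :
    kap R1 R2 X = fromBlocks (R1ᴴ * X * R1) (R1ᴴ * X * R2) (R2ᴴ * X * R1) (R2ᴴ * X * R2) := by
  rw [kap_apply, conjTranspose_fromCols_eq_fromRows_conjTranspose, fromRows_mul,
    fromRows_mul_fromCols]

section

variable {P Q : Matrix B B ℂ} {R1 R2 : Matrix B (Fin 2) ℂ} (F : Fr P Q R1 R2)
include F

theorem Fr.TT : fromCols R1 R2 * (fromCols R1 R2)ᴴ = P + Q := by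
  rw [conjTranspose_fromCols_eq_fromRows_conjTranspose, fromCols_mul_fromRows, F.p1, F.p2]

theorem Fr.r12 (hPQ : P * Q = 0) : R1ᴴ * R2 = 0 := by
  calc R1ᴴ * R2 = (R1ᴴ * R1) * R1ᴴ * (R2 * (R2ᴴ * R2)) := by rw [F.o1, F.o2, Matrix.one_mul, Matrix.mul_one]
  _ = R1ᴴ * ((R1 * R1ᴴ) * (R2 * R2ᴴ)) * R2 := by simp only [Matrix.mul_assoc]
  _ = 0 := by rw [F.p1, F.p2, hPQ, Matrix.mul_zero, Matrix.zero_mul]

theorem Fr.r21 (hPQ : Q * P = 0) : R2ᴴ * R1 = 0 := by
  calc R2ᴴ * R1 = (R2ᴴ * R2) * R2ᴴ * (R1 * (R1ᴴ * R1)) := by rw [F.o1, F.o2, Matrix.one_mul, Matrix.mul_one]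
  _ = R2ᴴ * ((R2 * R2ᴴ) * (R1 * R1ᴴ)) * R1 := by simp only [Matrix.mul_assoc]
  _ = 0 := by rw [F.p1, F.p2, hPQ, Matrix.mul_zero, Matrix.zero_mul]

theorem Fr.TT' (hPQ : P * Q = 0) (hQP : Q * P = 0) :
    (fromCols R1 R2)ᴴ * fromCols R1 R2 = 1 := by
  rw [conjTranspose_fromCols_eq_fromRows_conjTranspose, fromRows_mul_fromCols, F.o1, F.o2,
    F.r12 hPQ, F.r21 hQP, fromBlocks_one]

/-- Change of the bases. -/
theorem Fr.unit {u1 u2 : Matrix (Fin 2) (Fin 2) ℂ} (h1 : u1ᴴ * u1 = 1) (h2 : u2ᴴ * u2 = 1) :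
    Fr P Q (R1 * u1) (R2 * u2) where
  o1 := by
    rw [conjTranspose_mul]
    calc u1ᴴ * R1ᴴ * (R1 * u1) = u1ᴴ * (R1ᴴ * R1) * u1 := by simp only [Matrix.mul_assoc]
    _ = 1 := by rw [F.o1, Matrix.mul_one, h1]
  o2 := by
    rw [conjTranspose_mul]
    calc u2ᴴ * R2ᴴ * (R2 * u2) = u2ᴴ * (R2ᴴ * R2) * u2 := by simp only [Matrix.mul_assoc]
    _ = 1 := by rw [F.o2, Matrix.mul_one, h2]
  p1 := by
    rw [conjTranspose_mul]
    calc R1 * u1 * (u1ᴴ * R1ᴴ) = R1 * (u1 * u1ᴴ) * R1ᴴ := by simp only [Matrix.mul_assoc]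
    _ = P := by rw [mul_eq_one_comm.1 h1, Matrix.mul_one, F.p1]
  p2 := by
    rw [conjTranspose_mul]
    calc R2 * u2 * (u2ᴴ * R2ᴴ) = R2 * (u2 * u2ᴴ) * R2ᴴ := by simp only [Matrix.mul_assoc]
    _ = Q := by rw [mul_eq_one_comm.1 h2, Matrix.mul_one, F.p2]

variable {G : Submodule ℂ (Matrix B B ℂ)} (H : Lie G P Q 2 2)
include H

theorem Fr.back {X : Matrix B B ℂ} (hX : X ∈ G) :
    fromCols R1 R2 * kap R1 R2 X * (fromCols R1 R2)ᴴ = X := by
  rw [kap_apply]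
  calc fromCols R1 R2 * ((fromCols R1 R2)ᴴ * X * fromCols R1 R2) * (fromCols R1 R2)ᴴ =
      (fromCols R1 R2 * (fromCols R1 R2)ᴴ) * X * (fromCols R1 R2 * (fromCols R1 R2)ᴴ) := by
        simp only [Matrix.mul_assoc]
  _ = X := by rw [F.TT, H.lel X hX, H.ler X hX]

theorem Fr.mulK {X Y : Matrix B B ℂ} (hX : X ∈ G) :
    kap R1 R2 X * kap R1 R2 Y = kap R1 R2 (X * Y) := by
  rw [kap_apply, kap_apply, kap_apply]
  calc (fromCols R1 R2)ᴴ * X * fromCols R1 R2 * ((fromCols R1 R2)ᴴ * Y * fromCols R1 R2) =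
      (fromCols R1 R2)ᴴ * (X * (fromCols R1 R2 * (fromCols R1 R2)ᴴ)) * Y * fromCols R1 R2 := by
        simp only [Matrix.mul_assoc]
  _ = _ := by
    rw [F.TT, H.ler X hX]
    simp only [Matrix.mul_assoc]

/-- The Lie algebra in coordinates. -/
theorem Fr.c4 (htr : ∀ X ∈ G, trace X = 0) : C4 (G.map (kap R1 R2)) where
  br := by
    rintro _ ⟨X, hX, rfl⟩ _ ⟨Y, hY, rfl⟩
    rw [F.mulK H hX, F.mulK H hY, ← map_sub]
    exact ⟨_, H.br X hX Y hY, rfl⟩
  ad := by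
    rintro _ ⟨X, hX, rfl⟩
    refine ⟨Xᴴ, H.ad X hX, ?_⟩
    rw [kap_apply, kap_apply, conjTranspose_mul, conjTranspose_mul, conjTranspose_conjTranspose,
      Matrix.mul_assoc]
  D := by
    refine ⟨P - Q, H.D, ?_⟩
    rw [kap_blocks]
    have e1 : R1ᴴ * P = R1ᴴ := by
      rw [← F.p1, ← Matrix.mul_assoc, F.o1, Matrix.one_mul]
    have e2 : R2ᴴ * Q = R2ᴴ := by
      rw [← F.p2, ← Matrix.mul_assoc, F.o2, Matrix.one_mul]
    have e3 : R1ᴴ * Q = 0 := by
      rw [← F.p2, ← Matrix.mul_assoc, F.r12 H.PQ, Matrix.zero_mul]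
    have e4 : R2ᴴ * P = 0 := by
      rw [← F.p1, ← Matrix.mul_assoc, F.r21 H.QP, Matrix.zero_mul]
    rw [Matrix.mul_sub, Matrix.mul_sub, e1, e2, e3, e4, sub_zero, zero_sub, Matrix.neg_mul, Matrix.neg_mul, F.o1, F.o2,
      F.r12 H.PQ, F.r21 H.QP, neg_zero]
  tr := by
    rintro _ ⟨X, hX, rfl⟩
    rw [kap_apply, Matrix.mul_assoc, trace_mul_comm, Matrix.mul_assoc, F.TT, H.ler X hX, htr X hX]
  irr := by
    intro U hU
    have hTT := F.TT' H.PQ H.QP
    have hinv : ∀ u, (fromCols R1 R2)ᴴ *ᵥ (fromCols R1 R2 *ᵥ u) = u := fun u => by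
      rw [mulVec_mulVec, hTT, one_mulVec]
    have hPQT : (P + Q) * fromCols R1 R2 = fromCols R1 R2 := by
      rw [← F.TT, Matrix.mul_assoc, hTT, Matrix.mul_one]
    rcases H.irr (U.map (mulVecLin (fromCols R1 R2))) (by
      rintro _ ⟨u, -, rfl⟩
      rw [mulVecLin_apply, mulVec_mulVec, hPQT]) (by
      rintro X hX _ ⟨u, hu, rfl⟩
      refine ⟨kap R1 R2 X *ᵥ u, hU _ ⟨X, hX, rfl⟩ u hu, ?_⟩
      rw [mulVecLin_apply, mulVecLin_apply, mulVec_mulVec, mulVec_mulVec, kap_apply]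
      congr 1
      calc fromCols R1 R2 * ((fromCols R1 R2)ᴴ * X * fromCols R1 R2) =
          (fromCols R1 R2 * (fromCols R1 R2)ᴴ) * X * fromCols R1 R2 := by simp only [Matrix.mul_assoc]
      _ = X * fromCols R1 R2 := by rw [F.TT, H.lel X hX]) with h1 | h1
    · left
      rw [Submodule.eq_bot_iff] at h1 ⊢
      intro u hu
      have h2 := h1 _ ⟨u, hu, rfl⟩
      rw [mulVecLin_apply] at h2
      rw [← hinv u, h2, mulVec_zero]
    · right
      rw [Submodule.eq_top_iff']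
      intro u
      obtain ⟨w, hw, hwu⟩ := h1 (fromCols R1 R2 *ᵥ u) (by rw [mulVec_mulVec, hPQT])
      rw [mulVecLin_apply] at hwu
      have h2 := hinv w
      rw [hwu, hinv] at h2
      rw [h2]
      exact hw

/-- The conclusion. -/
theorem Fr.concl (h : (∀ Y, fromBlocks 0 Y 0 0 ∈ G.map (kap R1 R2)) ∨
      ∃ J : Matrix (Fin 2 ⊕ Fin 2) (Fin 2 ⊕ Fin 2) ℂ, J ≠ 0 ∧
        ∀ X ∈ G.map (kap R1 R2), Xᵀ * J + J * X = 0) :
    (∀ Y, P * Y * Q ∈ G) ∨
      ∃ J : Matrix B B ℂ, J ≠ 0 ∧ (P + Q)ᵀ * J = J ∧ J * (P + Q) = J ∧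
        ∀ X ∈ G, Xᵀ * J + J * X = 0 := by
  rcases h with h | ⟨J, hJ, h⟩
  · left
    intro Y
    obtain ⟨X, hX, hXY⟩ := h (R1ᴴ * Y * R2)
    have h1 := F.back H hX
    rw [hXY, conjTranspose_fromCols_eq_fromRows_conjTranspose, fromCols_mul_fromBlocks,
      fromCols_mul_fromRows] at h1
    simp only [Matrix.mul_zero, add_zero, Matrix.zero_mul, zero_add] at h1
    have h2 : P * Y * Q = X := by
      rw [← h1, ← F.p1, ← F.p2]
      simp only [Matrix.mul_assoc]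
    rw [h2]
    exact hX
  · right
    have hTT := F.TT' H.PQ H.QP
    obtain ⟨T, hT⟩ : ∃ T, T = fromCols R1 R2 := ⟨_, rfl⟩
    have hTTH := F.TT
    rw [← hT] at hTT hTTH
    have h2 : Tᴴ * (P + Q) = Tᴴ := by rw [← hTTH, ← Matrix.mul_assoc, hTT, Matrix.one_mul]
    refine ⟨(Tᴴ)ᵀ * J * Tᴴ, ?_, ?_, ?_, ?_⟩
    · intro h0
      apply hJ
      calc J = (Tᴴ * T)ᵀ * J * (Tᴴ * T) := by rw [hTT, transpose_one, Matrix.one_mul, Matrix.mul_one]
      _ = Tᵀ * ((Tᴴ)ᵀ * J * Tᴴ) * T := by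
            rw [transpose_mul]
            simp only [Matrix.mul_assoc]
      _ = 0 := by rw [h0, Matrix.mul_zero, Matrix.zero_mul]
    · rw [← Matrix.mul_assoc, ← Matrix.mul_assoc, ← transpose_mul, h2]
    · rw [Matrix.mul_assoc, h2]
    · intro X hX
      have h3 : Tᴴ * X = kap R1 R2 X * Tᴴ := by
        rw [kap_apply, ← hT]
        calc Tᴴ * X = Tᴴ * (X * (P + Q)) := by rw [H.ler X hX]
        _ = _ := by
              rw [← hTTH]
              simp only [Matrix.mul_assoc]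
      have h4 := h _ ⟨X, hX, rfl⟩
      calc Xᵀ * ((Tᴴ)ᵀ * J * Tᴴ) + (Tᴴ)ᵀ * J * Tᴴ * X =
          (Tᴴ * X)ᵀ * J * Tᴴ + (Tᴴ)ᵀ * J * (Tᴴ * X) := by
            rw [transpose_mul]
            simp only [Matrix.mul_assoc]
      _ = (Tᴴ)ᵀ * ((kap R1 R2 X)ᵀ * J + J * kap R1 R2 X) * Tᴴ := by
            rw [h3, transpose_mul, Matrix.mul_add, Matrix.add_mul]
            simp only [Matrix.mul_assoc]
      _ = 0 := by rw [h4, Matrix.mul_zero, Matrix.zero_mul]

end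

/-- A unitary matrix which maps a vector to a multiple of the first basis vector. -/
theorem exists_unitary {v : Fin 2 → ℂ} (hv : v ≠ 0) :
    ∃ (u : Matrix (Fin 2) (Fin 2) ℂ) (c : ℂ), uᴴ * u = 1 ∧ c ≠ 0 ∧ uᴴ *ᵥ v = ![c, 0] := by
  obtain ⟨r, hr⟩ : ∃ r : ℝ, r = ‖v 0‖ ^ 2 + ‖v 1‖ ^ 2 := ⟨_, rfl⟩
  have hr0 : 0 < r := by
    rw [hr]
    by_cases h0 : v 0 = 0
    · have h1 : v 1 ≠ 0 := by
        intro h1
        apply hv
        funext i
        fin_cases i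
        · exact h0
        · exact h1
      have := norm_pos_iff.2 h1
      positivity
    · have := norm_pos_iff.2 h0
      positivity
  obtain ⟨s, hs⟩ : ∃ s : ℝ, s = (Real.sqrt r)⁻¹ := ⟨_, rfl⟩
  have hs2 : s * s * r = 1 := by
    rw [hs, ← mul_inv, Real.mul_self_sqrt hr0.le, inv_mul_cancel₀ hr0.ne']
  have hs0 : s ≠ 0 := by
    rintro rfl
    simp at hs2
  have hrc : star (v 0) * v 0 + star (v 1) * v 1 = (r : ℂ) := by
    rw [hr]
    push_cast
    rw [← Complex.conj_mul', ← Complex.conj_mul']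
    rfl
  have hs2c : (s : ℂ) * s * r = 1 := by exact_mod_cast hs2
  have hsc : star (s : ℂ) = (s : ℂ) := Complex.conj_ofReal s
  refine ⟨(s : ℂ) • !![v 0, -star (v 1); v 1, star (v 0)], (s : ℂ) * r, ?_, ?_, ?_⟩
  · rw [conjTranspose_smul, hsc, Matrix.smul_mul, Matrix.mul_smul, smul_smul]
    ext i j
    fin_cases i <;> fin_cases j <;> simp [Matrix.mul_apply, Fin.sum_univ_two]
    · rw [← hs2c, ← hrc]
      simp
    · right
      ring
    · right
      ring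
    · rw [← hs2c, ← hrc]
      simp
      left
      ring
  · exact mul_ne_zero (by exact_mod_cast hs0) (by exact_mod_cast hr0.ne')
  · rw [conjTranspose_smul, hsc, smul_mulVec, ← hrc]
    funext i
    fin_cases i <;> simp
    right
    ring

/-- A matrix of rank one. -/
theorem exists_factor {x : Matrix (Fin 2) (Fin 2) ℂ} (hx : x ≠ 0) (hd : det x = 0) :
    ∃ v w : Fin 2 → ℂ, v ≠ 0 ∧ w ≠ 0 ∧ x = vecMulVec v w := by
  obtain ⟨p, q, r, s, rfl⟩ : ∃ p q r s, x = !![p, q; r, s] := ⟨_, _, _, _, Matrix.eta_fin_two x⟩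
  rw [det_fin_two_of] at hd
  by_cases hp : p = 0
  · by_cases hr : r = 0
    · refine ⟨![q, s], ![0, 1], ?_, ?_, ?_⟩
      · intro h0
        apply hx
        have h1 := congrFun h0 0
        have h2 := congrFun h0 1
        simp at h1 h2
        ext i j
        fin_cases i <;> fin_cases j <;> simp [hp, hr, h1, h2]
      · intro h0
        have h1 := congrFun h0 1
        simp at h1
      · ext i j
        fin_cases i <;> fin_cases j <;> simp [hp, hr, vecMulVec_apply]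
    · refine ⟨![p, r], ![1, s / r], ?_, ?_, ?_⟩
      · intro h0
        have h1 := congrFun h0 1
        simp at h1
        exact hr h1
      · intro h0
        have h1 := congrFun h0 0
        simp at h1
      · have hq : q = 0 := by
          rw [hp, zero_mul, zero_sub, neg_eq_zero] at hd
          exact (mul_eq_zero.1 hd).resolve_right hr
        ext i j
        fin_cases i <;> fin_cases j <;> simp [hp, hq, vecMulVec_apply]
        field_simp
  · refine ⟨![p, r], ![1, q / p], ?_, ?_, ?_⟩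
    · intro h0
      have h1 := congrFun h0 0
      simp at h1
      exact hp h1
    · intro h0
      have h1 := congrFun h0 0
      simp at h1
    · ext i j
      fin_cases i <;> fin_cases j <;> simp [vecMulVec_apply]
      · field_simp
      · field_simp
        linear_combination hd

/-- JOB UV9. -/
theorem two : Pool.Agent.Q180.UV.S_two := by
  intro B _ _ G P Q H htr
  obtain ⟨R1, a1, a2⟩ := exists_fr H.PP H.PH (by rw [H.trP]; norm_num)
  obtain ⟨R2, b1, b2⟩ := exists_fr H.QQ H.QH (by rw [H.trQ]; norm_num)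
  have F : Fr P Q R1 R2 := ⟨a1, b1, a2, b2⟩
  have hC := F.c4 H htr
  by_cases hex : ∃ x, x ≠ 0 ∧ det x = 0 ∧ fromBlocks 0 x 0 0 ∈ G.map (kap R1 R2)
  · obtain ⟨x, hx0, hdx, hx⟩ := hex
    obtain ⟨v, w, hv, hw, rfl⟩ := exists_factor hx0 hdx
    obtain ⟨u1, c1, h1, hc1, h1v⟩ := exists_unitary hv
    obtain ⟨u2, c2, h2, hc2, h2w⟩ := exists_unitary hw
    have h3 : (u2.map star)ᴴ * u2.map star = 1 := by
      have h4 := congrArg (fun M : Matrix (Fin 2) (Fin 2) ℂ => M.map (starRingEnd ℂ)) h2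
      simp only [Matrix.map_mul] at h4
      rw [Matrix.map_one _ (map_zero _) (map_one _)] at h4
      exact h4
    have F' := F.unit h1 h3
    refine F'.concl H ((F'.c4 H htr).main_unit ?_)
    obtain ⟨X, hX, hXx⟩ := hx
    refine ⟨(c1 * c2)⁻¹ • X, G.smul_mem _ hX, ?_⟩
    rw [map_smul]
    rw [kap_blocks] at hXx ⊢
    have e0 := congrArg toBlocks₁₁ hXx
    have e1 := congrArg toBlocks₁₂ hXx
    have e2 := congrArg toBlocks₂₁ hXx
    have e3 := congrArg toBlocks₂₂ hXx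
    rw [toBlocks_fromBlocks₁₁, toBlocks_fromBlocks₁₁] at e0
    rw [toBlocks_fromBlocks₁₂, toBlocks_fromBlocks₁₂] at e1
    rw [toBlocks_fromBlocks₂₁, toBlocks_fromBlocks₂₁] at e2
    rw [toBlocks_fromBlocks₂₂, toBlocks_fromBlocks₂₂] at e3
    have hgen : ∀ (p q : Matrix (Fin 2) (Fin 2) ℂ) (S T : Matrix B (Fin 2) ℂ),
        (S * p)ᴴ * X * (T * q) = pᴴ * (Sᴴ * X * T) * q := by
      intro p q S T
      rw [conjTranspose_mul]
      simp only [Matrix.mul_assoc]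
    rw [hgen, hgen, hgen, hgen, e0, e1, e2, e3, fromBlocks_smul]
    simp only [Matrix.mul_zero, Matrix.zero_mul, smul_zero]
    congr 1
    rw [mul_vecMulVec, vecMulVec_mul, h1v]
    have h5 : w ᵥ* u2.map star = ![c2, 0] := by
      rw [← h2w]
      funext i
      simp only [Matrix.mulVec, Matrix.vecMul, dotProduct, Matrix.conjTranspose_apply,
        Matrix.map_apply]
      exact Finset.sum_congr rfl fun j _ => mul_comm _ _
    rw [h5]
    ext i j
    fin_cases i <;> fin_cases j <;> simp [vecMulVec_apply]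
    field_simp
  · push Not at hex
    exact F.concl H (Or.inr (hC.main_inv fun x hx0 hx hd => hex x hx0 hd hx))

end Pool.Agent.Q176.UV
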