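import Mathlib
import Pool.Agent.Q180.UV.Stm2
import Pool.Agent.Y4.K.Glob
import Pool.Agent.Q176.UV.Two

/-!
# Project UV, job WT22: balanced places of dimension four
-/

set_option autoImplicit false
set_option linter.unusedSectionVars false

namespace Pool.Agent.Q176.UV

open Matrix Module Pool.Agent.H204R3.CM Pool.Agent.H194R3.CM Pool.Agent.W437.HC
  Pool.Agent.W437.HD Pool.Agent.W437.HQ Pool.Agent.W548.Odd Pool.Agent.TH125 Pool.Agent.Y4
  Pool.Agent.Y4.G Pool.Agent.Y4.K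

open Pool.Agent.Y4.H (LZ Ct map_smul_aut' D_mem_LZ Dσ_mem_LZ)

open scoped ComplexOrder

variable {g : ℕ} {Z : Matrix (Fin g) (Fin g) ℂ}

/-- The trace on a balanced place is zero. -/
theorem trace_bal (M : Pol Z) {ε : Pr Z}
    (hmu : ∀ σ : ℂ ≃+* ℂ, mu (M.act σ ε) = 2 ∧ mu (M.bar (M.act σ ε)) = 2) :
    ∀ X ∈ LZ Z, trace (X * ε.e) = 0 := by
  let L : Submodule ℂ (Matrix (Fin g ⊕ Fin g) (Fin g ⊕ Fin g) ℂ) :=
    { carrier := {X | X ∈ LZ Z ∧ trace (X * ε.e) = 0}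
      zero_mem' := ⟨Submodule.zero_mem _, by rw [zero_mul, trace_zero]⟩
      add_mem' := fun {a b} ha hb => ⟨Submodule.add_mem _ ha.1 hb.1, by
        rw [add_mul, trace_add, ha.2, hb.2, add_zero]⟩
      smul_mem' := fun t a ha => ⟨Submodule.smul_mem _ t ha.1, by
        rw [Matrix.smul_mul, trace_smul, ha.2, smul_zero]⟩ }
  have hL : LZ Z ≤ L := by
    refine LA_le_of_conj ?_ ?_
    · rintro _ ⟨Z', hZ', rfl⟩ σ
      rw [Set.mem_singleton_iff.1 hZ']
      refine ⟨Dσ_mem_LZ σ, ?_⟩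
      have h1 := M.trace_P σ (M.act σ.symm ε)
      have h2 := M.trace_Q σ (M.act σ.symm ε)
      rw [M.act_symm'] at h1 h2
      rw [(hmu σ.symm).1] at h1
      rw [(hmu σ.symm).2] at h2
      have h3 : (DZ Z).map (σ : ℂ →+* ℂ) * ε.e =
          ((2 : ℂ)⁻¹ • (1 + (DZ Z).map (σ : ℂ →+* ℂ))) * ε.e -
          ((2 : ℂ)⁻¹ • (1 - (DZ Z).map (σ : ℂ →+* ℂ))) * ε.e := by
        rw [← sub_mul, ← smul_sub, add_sub_sub_cancel, ← two_smul ℂ ((DZ Z).map (σ : ℂ →+* ℂ)),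
          smul_smul, inv_mul_cancel₀ two_ne_zero, one_smul]
      change trace ((DZ Z).map (σ : ℂ →+* ℂ) * ε.e) = 0
      rw [h3, trace_sub, h1, h2, sub_self]
    · rintro A ⟨hA, -⟩ C ⟨hC, -⟩
      refine ⟨LA_br hA hC, ?_⟩
      rw [sub_mul, trace_sub, mul_assoc, comm_LZ ε C hC, trace_mul_comm, mul_assoc,
        trace_mul_comm ε.e, sub_self]
  exact fun X hX => (hL hX).2

/-- JOB UV9b. -/
theorem wt22 : Pool.Agent.Q180.UV.S_two → Pool.Agent.Q180.UV.S_wt22 := by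
  intro htwo g Z M φ hmu hnot
  obtain ⟨ε, hε, hεe⟩ := M.eqv_sa φ
  have hmu' : ∀ σ : ℂ ≃+* ℂ, mu (M.act σ ε) = 2 ∧ mu (M.bar (M.act σ ε)) = 2 := by
    intro σ
    rw [M.mu_eqv (M.eqv_act hεe σ), M.mu_eqv (M.eqv_bar (M.eqv_act hεe σ))]
    exact hmu σ
  have hnot' : ¬ Eqv ε (M.bar ε) := fun h => hnot ((hεe.symm.trans h).trans (M.eqv_bar hεe))
  refine hεe.nil le_rfl ?_
  have hact : M.act (RingEquiv.refl ℂ) ε = ε := by
    apply Pr.ext
    rw [M.act_e]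
    ext i j
    rfl
  have hmu1 : mu ε = 2 := by
    have h1 := (hmu' (RingEquiv.refl ℂ)).1
    rwa [hact] at h1
  have hmu2 : mu (M.bar ε) = 2 := by
    have h1 := (hmu' (RingEquiv.refl ℂ)).2
    rwa [hact] at h1
  have htr := trace_bal M hmu'
  obtain ⟨S, Si, hSSi, hSiS, H⟩ := M.lie_place hε
  rw [hmu1, hmu2] at H
  have hlr : ∀ X, lr S (ε.e * Si) X = S * (X * ε.e) * Si := by
    intro X
    rw [lr_apply]
    noncomm_ring
  have htrc : ∀ X : Matrix (Fin g ⊕ Fin g) (Fin g ⊕ Fin g) ℂ, trace (S * X * Si) = trace X := by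
    intro X
    rw [trace_mul_comm, ← mul_assoc, hSiS, one_mul]
  have key : ∀ V V' : Matrix (Fin g ⊕ Fin g) (Fin g ⊕ Fin g) ℂ, S * V * Si = S * V' * Si →
      V = V' := by
    intro V V' h
    have h3 := congrArg (fun W => Si * W * S) h
    have h4 : ∀ W : Matrix (Fin g ⊕ Fin g) (Fin g ⊕ Fin g) ℂ, Si * (S * W * Si) * S = W := by
      intro W
      calc Si * (S * W * Si) * S = (Si * S) * W * (Si * S) := by noncomm_ring
      _ = W := by rw [hSiS, one_mul, mul_one]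
    simp only [h4] at h3
    exact h3
  have hadd : S * pr ε * Si + S * qr ε * Si = S * ε.e * Si := by
    rw [← pr_add_qr' ε]
    noncomm_ring
  rcases htwo _ _ _ _ H (by
    rintro _ ⟨X, hX, rfl⟩
    rw [hlr, htrc]
    exact htr X hX) with h | ⟨J, hJ0, hJ1, hJ2, hJ⟩
  · have hb1 : ∀ Y, ∃ X ∈ LZ Z, X * ε.e = pr ε * Y * qr ε := by
      intro Y
      obtain ⟨X, hX, h3⟩ := h (S * Y * Si)
      refine ⟨X, hX, key _ _ ?_⟩
      rw [← hlr]
      refine h3.trans ?_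
      calc S * pr ε * Si * (S * Y * Si) * (S * qr ε * Si) =
          S * pr ε * (Si * S) * Y * (Si * S) * qr ε * Si := by noncomm_ring
      _ = _ := by rw [hSiS]; noncomm_ring
    have hb2 : ∀ Y, ∃ X ∈ LZ Z, X * ε.e = qr ε * Y * pr ε := by
      intro Y
      obtain ⟨X, hX, h3⟩ := H.ad _ (h (S * Y * Si)ᴴ)
      refine ⟨X, hX, key _ _ ?_⟩
      rw [← hlr]
      refine h3.trans ?_
      have e1 : ∀ (p q y : Matrix (Fin g ⊕ Fin g) (Fin g ⊕ Fin g) ℂ), pᴴ = p → qᴴ = q →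
          (p * yᴴ * q)ᴴ = q * y * p := by
        intro p q y hp hq
        rw [conjTranspose_mul, conjTranspose_mul, conjTranspose_conjTranspose, hp, hq, mul_assoc]
      rw [e1 _ _ _ H.PH H.QH]
      calc S * qr ε * Si * (S * Y * Si) * (S * pr ε * Si) =
          S * qr ε * (Si * S) * Y * (Si * S) * pr ε * Si := by noncomm_ring
      _ = _ := by rw [hSiS]; noncomm_ring
    refine nil_of_blocks (P := pr ε) (Q := qr ε) ?_ (M.pr_idem ε)
      (M.qr_idem ε) ?_ ?_ (pr_add_qr' ε) hb1 hb2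
    · rintro _ ⟨X, hX, rfl⟩ _ ⟨Y, hY, rfl⟩
      rw [br_mul ε.idem (comm_LZ ε _ hX) (comm_LZ ε _ hY)]
      exact ⟨_, LA_br hX hY, rfl⟩
    · intro h0
      have h1 := M.trace_pr ε
      rw [h0, trace_zero, hmu1] at h1
      norm_num at h1
    · intro h0
      have h1 := M.trace_qr ε
      rw [h0, trace_zero, hmu2] at h1
      norm_num at h1
  · exfalso
    apply hnot'
    rw [hadd] at hJ1 hJ2
    obtain ⟨J', hJ'⟩ : ∃ J', J' = Sᵀ * J * S := ⟨_, rfl⟩
    have hSiST : Siᵀ * Sᵀ = 1 := by rw [← transpose_mul, hSSi, transpose_one]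
    have hSiST' : Sᵀ * Siᵀ = 1 := by rw [← transpose_mul, hSiS, transpose_one]
    have hJ'0 : J' ≠ 0 := by
      intro h0
      apply hJ0
      calc J = (Siᵀ * Sᵀ) * J * (S * Si) := by rw [hSiST, hSSi, one_mul, mul_one]
      _ = Siᵀ * (Sᵀ * J * S) * Si := by noncomm_ring
      _ = 0 := by rw [← hJ', h0, mul_zero, zero_mul]
    have hJe : J' * ε.e = J' := by
      calc J' * ε.e = Sᵀ * (J * (S * ε.e * Si)) * S := by
            rw [hJ']
            have h1 : Sᵀ * (J * (S * ε.e * Si)) * S = Sᵀ * J * S * ε.e * (Si * S) := by noncomm_ring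
            rw [h1, hSiS, mul_one]
      _ = J' := by rw [hJ2, hJ']
    have heJ : ε.eᵀ * J' = J' := by
      calc ε.eᵀ * J' = Sᵀ * ((S * ε.e * Si)ᵀ * J) * S := by
            rw [hJ', transpose_mul, transpose_mul]
            have h1 : Sᵀ * (Siᵀ * (ε.eᵀ * Sᵀ) * J) * S = (Sᵀ * Siᵀ) * ε.eᵀ * Sᵀ * J * S := by
              noncomm_ring
            rw [h1, hSiST', one_mul]
            noncomm_ring
      _ = J' := by rw [hJ1, hJ']
    have hinv : ∀ Y ∈ LZ Z, Yᵀ * J' + J' * Y = 0 := by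
      intro Y hY
      have h1 := hJ _ ⟨Y, hY, rfl⟩
      rw [hlr] at h1
      have h2 : (Y * ε.e)ᵀ * J' + J' * (Y * ε.e) = 0 := by
        have h3 : Sᵀ * ((S * (Y * ε.e) * Si)ᵀ * J + J * (S * (Y * ε.e) * Si)) * S =
            (Y * ε.e)ᵀ * J' + J' * (Y * ε.e) := by
          rw [transpose_mul, transpose_mul, hJ']
          have h4 : Sᵀ * (Siᵀ * ((Y * ε.e)ᵀ * Sᵀ) * J + J * (S * (Y * ε.e) * Si)) * S =
              (Sᵀ * Siᵀ) * (Y * ε.e)ᵀ * Sᵀ * J * S + Sᵀ * J * S * (Y * ε.e) * (Si * S) := by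
            noncomm_ring
          rw [h4, hSiST', hSiS, one_mul, mul_one]
          noncomm_ring
        rw [← h3, h1, mul_zero, zero_mul]
      rw [comm_LZ ε Y hY, transpose_mul, mul_assoc, heJ, ← mul_assoc J', hJe] at h2
      exact h2
    obtain ⟨c, hc⟩ : ∃ c, c = Om g ℂ * J' := ⟨_, rfl⟩
    have hO2 : Om g ℂ * Om g ℂ = -1 := Om_sq ℂ
    have hcm : Ct Z c := by
      intro Y hY
      have h1 := hinv Y hY
      have h2 := M.Om_LT hY
      have h3 : Om g ℂ * (Yᵀ * J' + J' * Y) = 0 := by rw [h1, mul_zero]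
      rw [mul_add, ← mul_assoc, h2, ← mul_assoc, neg_mul, mul_assoc Y, ← hc] at h3
      exact (neg_add_eq_zero.1 h3).symm
    refine M.eqv_of_ne ε (M.bar ε) hcm ?_
    have h1 : (M.bar ε).e * c = c := by
      rw [hc, ← mul_assoc, ← M.Om_eT, mul_assoc, heJ]
    rw [h1, hc, mul_assoc, hJe]
    intro h0
    apply hJ'0
    calc J' = -(Om g ℂ * Om g ℂ) * J' := by rw [hO2, neg_neg, one_mul]
    _ = -(Om g ℂ * (Om g ℂ * J')) := by noncomm_ring
    _ = 0 := by rw [h0, mul_zero, neg_zero]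

/-- JOB UV9b without hypothesis. -/
theorem wt22' : Pool.Agent.Q180.UV.S_wt22 := wt22 two

end Pool.Agent.Q176.UV
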